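import Mathlib

set_option autoImplicit false
set_option linter.unusedSectionVars false

namespace H41

open Finset

variable {V : Type*} [Fintype V] [DecidableEq V]

/-- `Q T a x y`: the three vertices form a triangle of `T`. -/
def Q (T : Finset (Finset V)) (a x y : V) : Prop := ({a, x, y} : Finset V) ∈ T

instance (T : Finset (Finset V)) (a x y : V) : Decidable (Q T a x y) := by
  unfold Q; infer_instance

/-- closed pseudo-triangulation -/
structure Surf (T : Finset (Finset V)) : Prop where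
  card3 : ∀ t ∈ T, t.card = 3
  cov : ∀ v : V, ∃ t ∈ T, v ∈ t
  edge2 : ∀ t ∈ T, ∀ e ⊆ t, e.card = 2 → (T.filter (fun s => e ⊆ s)).card = 2
  link : ∀ v a b : V, (∃ t ∈ T, v ∈ t ∧ a ∈ t ∧ v ≠ a) → (∃ t ∈ T, v ∈ t ∧ b ∈ t ∧ v ≠ b) →
        (SimpleGraph.fromRel (fun x y : V => ({v, x, y} : Finset V) ∈ T)).Reachable a b
  conn : ∀ a b : V, (SimpleGraph.fromRel (fun x y : V => ∃ t ∈ T, x ∈ t ∧ y ∈ t)).Reachable a b

variable {T : Finset (Finset V)}

lemma Q_swap12 {a x y : V} : Q T a x y ↔ Q T x a y := by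
  unfold Q; rw [Finset.insert_comm]

lemma Q_swap23 {a x y : V} : Q T a x y ↔ Q T a y x := by
  unfold Q; rw [Finset.pair_comm]

lemma Q_rot {a x y : V} : Q T a x y ↔ Q T x y a := by
  rw [Q_swap12, Q_swap23]

lemma Q_ne (h : Surf T) {a x y : V} (hq : Q T a x y) : a ≠ x ∧ a ≠ y ∧ x ≠ y := by
  have := h.card3 _ hq
  refine ⟨?_, ?_, ?_⟩ <;> rintro rfl
  · have h2 : ({a, a, y} : Finset V) = {a, y} := by simp
    rw [h2] at this
    have := Finset.card_le_two (a := a) (b := y)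
    omega
  · have h2 : ({a, x, a} : Finset V) = {a, x} := by
      ext z; simp; tauto
    rw [h2] at this
    have := Finset.card_le_two (a := a) (b := x)
    omega
  · have h2 : ({a, x, x} : Finset V) = {a, x} := by simp
    rw [h2] at this
    have := Finset.card_le_two (a := a) (b := x)
    omega

/-- the set of edges -/
def E (T : Finset (Finset V)) : Finset (Finset V) := T.biUnion (fun t => t.powersetCard 2)

lemma mem_E {e : Finset V} : e ∈ E T ↔ e.card = 2 ∧ ∃ t ∈ T, e ⊆ t := by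
  unfold E
  simp only [Finset.mem_biUnion, Finset.mem_powersetCard]
  constructor
  · rintro ⟨t, ht, h1, h2⟩; exact ⟨h2, t, ht, h1⟩
  · rintro ⟨h2, t, ht, h1⟩; exact ⟨t, ht, h1, h2⟩

lemma tri_cases (h : Surf T) {t e : Finset V} (ht : t ∈ T) (he : e.card = 2) (hs : e ⊆ t) :
    ∃ z, z ∉ e ∧ t = insert z e := by
  have h3 := h.card3 t ht
  have hc : (t \ e).card = 1 := by
    rw [Finset.card_sdiff_of_subset hs]; omega
  obtain ⟨z, hz⟩ := Finset.card_eq_one.mp hc
  refine ⟨z, ?_, ?_⟩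
  · have : z ∈ t \ e := by rw [hz]; simp
    exact (Finset.mem_sdiff.mp this).2
  · ext w
    simp only [Finset.mem_insert]
    have hw : w ∈ t \ e ↔ w = z := by rw [hz]; simp
    simp only [Finset.mem_sdiff] at hw
    constructor
    · intro hwt
      by_cases hwe : w ∈ e
      · exact Or.inr hwe
      · exact Or.inl (hw.mp ⟨hwt, hwe⟩)
    · rintro (hw1 | hw1)
      · exact (hw.mpr hw1).1
      · exact hs hw1

lemma pair_mem_E (h : Surf T) {x y : V} : ({x, y} : Finset V) ∈ E T ↔ ∃ z, Q T x y z := by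
  rw [mem_E]
  constructor
  · rintro ⟨hc, t, ht, hs⟩
    obtain ⟨z, hz, rfl⟩ := tri_cases h ht hc hs
    refine ⟨z, ?_⟩
    rw [← Q_rot]; exact ht
  · rintro ⟨z, hz⟩
    have := Q_ne h hz
    refine ⟨Finset.card_pair this.1, _, hz, ?_⟩
    intro w; simp; tauto

/-- vertices opposite to an edge -/
def opp (T : Finset (Finset V)) (e : Finset V) : Finset V :=
  univ.filter (fun v => v ∉ e ∧ insert v e ∈ T)

lemma mem_opp {e : Finset V} {v : V} : v ∈ opp T e ↔ v ∉ e ∧ insert v e ∈ T := by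
  simp [opp]

lemma mem_opp_pair (h : Surf T) {x y z : V} : z ∈ opp T {x, y} ↔ Q T x y z := by
  rw [mem_opp, ← Q_rot]
  constructor
  · exact fun hh => hh.2
  · intro hh
    refine ⟨?_, hh⟩
    have := Q_ne h hh
    simp; tauto

lemma card_opp (h : Surf T) {e : Finset V} (he : e ∈ E T) : (opp T e).card = 2 := by
  rw [mem_E] at he
  obtain ⟨hc, t, ht, hs⟩ := he
  rw [← h.edge2 t ht e hs hc]
  apply Finset.card_bij (fun v _ => insert v e)
  · intro v hv
    rw [mem_opp] at hv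
    simp [hv.2]
  · intro v hv w hw hvw
    rw [mem_opp] at hv hw
    have : v ∈ insert w e := by rw [← hvw]; simp
    rcases Finset.mem_insert.mp this with h1 | h1
    · exact h1
    · exact absurd h1 hv.1
  · intro s hs'
    rw [Finset.mem_filter] at hs'
    obtain ⟨z, hz, rfl⟩ := tri_cases h hs'.1 hc hs'.2
    exact ⟨z, mem_opp.mpr ⟨hz, hs'.1⟩, rfl⟩

/-- closed set principle for links -/
lemma link_closed (h : Surf T) (a : V) (X : Set V) (x₀ y₀ : V) (hx₀ : x₀ ∈ X) (hq : Q T a x₀ y₀)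
    (hX : ∀ x ∈ X, ∀ y, Q T a x y → y ∈ X) : ∀ z y, Q T a z y → z ∈ X := by
  intro z y hzy
  have hne := Q_ne h hzy
  have hne0 := Q_ne h hq
  have hr := h.link a x₀ z ⟨_, hq, by simp, by simp, hne0.1⟩ ⟨_, hzy, by simp, by simp, hne.1⟩
  obtain ⟨p⟩ := hr
  clear hq hne0 hzy hne
  induction p with
  | nil => exact hx₀
  | cons hadj p ih =>
    apply ih
    rw [SimpleGraph.fromRel_adj] at hadj
    obtain ⟨_, h1 | h1⟩ := hadj
    · exact hX _ hx₀ _ h1
    · exact hX _ hx₀ _ (Q_swap23.mp h1)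

/-- strong connectivity -/
lemma strong_conn (h : Surf T) (S : Set (Finset V)) (hne : ∃ t ∈ T, t ∈ S)
    (hS : ∀ t ∈ T, t ∈ S → ∀ t' ∈ T, ∀ e, e.card = 2 → e ⊆ t → e ⊆ t' → t' ∈ S) :
    ∀ t ∈ T, t ∈ S := by
  obtain ⟨t₀, ht₀, ht₀S⟩ := hne
  -- at a vertex
  have hv : ∀ v : V, (∃ t ∈ T, v ∈ t ∧ t ∈ S) → ∀ t ∈ T, v ∈ t → t ∈ S := by
    rintro v ⟨t, ht, hvt, htS⟩ t' ht' hvt'
    have hform : ∀ t ∈ T, v ∈ t → ∃ x y, Q T v x y ∧ t = {v, x, y} := by
      intro t ht hvt
      have h3 := h.card3 t ht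
      have hc : (t.erase v).card = 2 := by rw [Finset.card_erase_of_mem hvt]; omega
      obtain ⟨x, y, hxy, hh⟩ := Finset.card_eq_two.mp hc
      have : t = {v, x, y} := by rw [← hh, Finset.insert_erase hvt]
      exact ⟨x, y, by unfold Q; rw [← this]; exact ht, this⟩
    obtain ⟨x, y, hxy, rfl⟩ := hform t ht hvt
    obtain ⟨x', y', hxy', rfl⟩ := hform t' ht' hvt'
    have key := link_closed h v {a | ∀ b, Q T v a b → ({v, a, b} : Finset V) ∈ S} x y ?_ hxy ?_ x' y' hxy'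
    · exact key y' hxy'
    · intro b hb
      have h1 := Q_ne h hxy
      exact hS _ hxy htS _ hb {v, x} (Finset.card_pair h1.1) (by intro w; simp; tauto) (by intro w; simp; tauto)
    · intro a ha b hab c hbc
      have h1 := Q_ne h hab
      have h2 := ha b hab
      exact hS _ hab h2 _ hbc {v, b} (Finset.card_pair h1.2.1) (by intro w; simp; tauto) (by intro w; simp; tauto)
  -- all vertices
  have hall : ∀ v : V, ∀ t ∈ T, v ∈ t → t ∈ S := by
    intro v
    have h3 := h.card3 t₀ ht₀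
    have hcpos : 0 < t₀.card := by omega
    obtain ⟨v₀, hv₀⟩ := Finset.card_pos.mp hcpos
    have h0 : ∀ t ∈ T, v₀ ∈ t → t ∈ S := hv v₀ ⟨t₀, ht₀, hv₀, ht₀S⟩
    obtain ⟨p⟩ := h.conn v₀ v
    clear hv₀
    induction p with
    | nil => exact h0
    | cons hadj p ih =>
      apply ih
      rw [SimpleGraph.fromRel_adj] at hadj
      obtain ⟨_, ⟨t, ht, ha, hb⟩ | ⟨t, ht, ha, hb⟩⟩ := hadj
      · exact hv _ ⟨t, ht, hb, h0 t ht ha⟩
      · exact hv _ ⟨t, ht, ha, h0 t ht hb⟩
  intro t ht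
  have h3 := h.card3 t ht
  have hcpos : 0 < t.card := by omega
  obtain ⟨v, hv⟩ := Finset.card_pos.mp hcpos
  exact hall v t ht hv

end H41
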