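import Pool.Agent.H41.Main

set_option autoImplicit false
set_option linter.unusedSectionVars false
set_option linter.unusedVariables false

namespace H41

open Finset

variable {V : Type*} [Fintype V] [DecidableEq V] {T : Finset (Finset V)}
variable {W : Finset V}

lemma D_iff (h : Surf T) {a b : V} :
    D T a b ↔ a ≠ b ∧ (({a, b} : Finset V) ∈ E T ∨ ∃ e ∈ E T, opp T e = {a, b}) := by
  constructor
  · rintro ⟨hne, ⟨z, hz⟩ | ⟨x, y, h1, h2⟩⟩
    · exact ⟨hne, Or.inl ((pair_mem_E h).mpr ⟨z, hz⟩)⟩
    · exact ⟨hne, Or.inr ⟨{x, y}, (pair_mem_E h).mpr ⟨a, h1⟩, opp_pair_eq h hne h1 h2⟩⟩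
  · rintro ⟨hne, hE | ⟨e, he, ho⟩⟩
    · exact ⟨hne, Or.inl ((pair_mem_E h).mp hE)⟩
    · obtain ⟨x, y, hxy, rfl⟩ := Finset.card_eq_two.mp (mem_E.mp he).1
      refine ⟨hne, Or.inr ⟨x, y, ?_, ?_⟩⟩
      · rw [← mem_opp_pair h, ho]; simp
      · rw [← mem_opp_pair h, ho]; simp

/-- D-neighbours in W -/
noncomputable def N (T : Finset (Finset V)) (W : Finset V) (w : V) : Finset V := by
  classical
  exact W.filter (fun b => D T w b)

lemma mem_N {w b : V} : b ∈ N T W w ↔ b ∈ W ∧ D T w b := by
  simp [N]

lemma mem_PW (h : Surf T) {a b : V} (hab : a ≠ b) : ({a, b} : Finset V) ∈ PW T W ↔ a ∈ W ∧ b ∈ W ∧ D T a b := by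
  rw [D_iff h]
  simp only [PW, Finset.mem_filter, Finset.mem_powersetCard]
  constructor
  · rintro ⟨⟨hs, _⟩, hor⟩
    exact ⟨hs (by simp), hs (by simp), hab, hor⟩
  · rintro ⟨ha, hb, _, hor⟩
    refine ⟨⟨?_, Finset.card_pair hab⟩, hor⟩
    intro z hz
    simp only [Finset.mem_insert, Finset.mem_singleton] at hz
    rcases hz with rfl | rfl <;> assumption

lemma card_N (h : Surf T) {w : V} (hw : w ∈ W) : (N T W w).card = ((PW T W).filter (fun p => w ∈ p)).card := by
  apply Finset.card_bij (fun b _ => ({w, b} : Finset V))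
  · intro b hb
    rw [mem_N] at hb
    rw [Finset.mem_filter]
    exact ⟨(mem_PW h hb.2.1).mpr ⟨hw, hb.1, hb.2⟩, by simp⟩
  · intro b hb c hc heq
    rw [mem_N] at hb hc
    have : b ∈ ({w, c} : Finset V) := by rw [← heq]; simp
    simp only [Finset.mem_insert, Finset.mem_singleton] at this
    rcases this with h1 | h1
    · exact absurd h1.symm hb.2.1
    · exact h1
  · intro p hp
    rw [Finset.mem_filter] at hp
    have hp2 : p.card = 2 := by
      have := hp.1
      simp only [PW, Finset.mem_filter, Finset.mem_powersetCard] at this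
      exact this.1.2
    obtain ⟨x, y, hxy, rfl⟩ := Finset.card_eq_two.mp hp2
    have hwm := hp.2
    simp only [Finset.mem_insert, Finset.mem_singleton] at hwm
    rcases hwm with rfl | rfl
    · have := (mem_PW h hxy).mp hp.1
      exact ⟨y, mem_N.mpr ⟨this.2.1, this.2.2⟩, rfl⟩
    · rw [Finset.pair_comm] at hp
      have := (mem_PW h hxy.symm).mp hp.1
      exact ⟨x, mem_N.mpr ⟨this.2.1, this.2.2⟩, Finset.pair_comm _ _⟩

lemma sum_N (h : Surf T) : ∑ w ∈ W, (N T W w).card = 2 * (PW T W).card := by
  have h1 : ∑ w ∈ W, (N T W w).card = ∑ w ∈ W, ((PW T W).filter (fun p => w ∈ p)).card :=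
    Finset.sum_congr rfl (fun w hw => card_N h hw)
  rw [h1]
  simp only [Finset.card_filter]
  rw [Finset.sum_comm]
  have h2 : ∀ p ∈ PW T W, (∑ w ∈ W, if w ∈ p then 1 else 0) = 2 := by
    intro p hp
    simp only [PW, Finset.mem_filter, Finset.mem_powersetCard] at hp
    rw [← Finset.card_filter, ← hp.1.2]
    congr 1
    ext z
    rw [Finset.mem_filter]
    exact ⟨fun hh => hh.2, fun hh => ⟨hp.1.1 hh, hh⟩⟩
  rw [Finset.sum_congr rfl h2, Finset.sum_const, smul_eq_mul, mul_comm]

lemma exists_ctx (h : Surf T) (W : Finset V)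
    (hdeg : ∀ a ∈ W, ∃ b ∈ W, ∃ c ∈ W, b ≠ c ∧ D T a b ∧ D T a c) : ∃ B, Ctx T W B := by
  classical
  set B0 : Finset (Finset V) := (E T).filter (fun e => e ⊆ Wᶜ ∧ opp T e ⊆ W ∧ opp T e ∉ E T) with hB0
  obtain ⟨s', hs', hbij⟩ := Set.exists_subset_bijOn (B0 : Set (Finset V)) (opp T)
  have hfin : s'.Finite := B0.finite_toSet.subset hs'
  refine ⟨hfin.toFinset, h, ?_, ?_, ?_, hdeg⟩
  · intro e he
    rw [Set.Finite.mem_toFinset] at he
    have := hs' he
    simp only [hB0, Finset.mem_coe, Finset.mem_filter] at this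
    exact this
  · intro e he h1 h2 h3
    have he0 : e ∈ (B0 : Set (Finset V)) := by
      simp only [hB0, Finset.mem_coe, Finset.mem_filter]
      exact ⟨he, h1, h2, h3⟩
    obtain ⟨e', he', heq⟩ := hbij.surjOn (Set.mem_image_of_mem _ he0)
    exact ⟨e', by rw [Set.Finite.mem_toFinset]; exact he', heq⟩
  · intro e he e' he' heq
    rw [Set.Finite.mem_toFinset] at he he'
    exact hbij.injOn he he' heq

lemma card_triangles_at (h : Surf T) (w : V) :
    ((E T).filter (fun e => w ∈ opp T e)).card = (T.filter (fun t => w ∈ t)).card := by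
  symm
  apply Finset.card_bij (fun t _ => t.erase w)
  · intro t ht
    rw [Finset.mem_filter] at ht ⊢
    have h3 := h.card3 t ht.1
    refine ⟨mem_E.mpr ⟨by rw [Finset.card_erase_of_mem ht.2]; omega, t, ht.1, Finset.erase_subset _ _⟩, ?_⟩
    rw [mem_opp, Finset.insert_erase ht.2]
    exact ⟨by simp, ht.1⟩
  · intro t ht t' ht' heq
    rw [Finset.mem_filter] at ht ht'
    rw [← Finset.insert_erase ht.2, ← Finset.insert_erase ht'.2, heq]
  · intro e he
    rw [Finset.mem_filter, mem_opp] at he
    refine ⟨insert w e, Finset.mem_filter.mpr ⟨he.2.2, by simp⟩, ?_⟩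
    rw [Finset.erase_insert he.2.1]

lemma card_edges_at (h : Surf T) (w : V) :
    ((E T).filter (fun e => w ∈ e)).card = (T.filter (fun t => w ∈ t)).card := by
  have h1 : ∑ e ∈ (E T).filter (fun e => w ∈ e), (T.filter (fun s => e ⊆ s)).card
      = 2 * ((E T).filter (fun e => w ∈ e)).card := by
    have h0 : ∀ e ∈ (E T).filter (fun e => w ∈ e), (T.filter (fun s => e ⊆ s)).card = 2 := by
      intro e he
      rw [Finset.mem_filter, mem_E] at he
      obtain ⟨⟨hc, t, ht, hs⟩, _⟩ := he
      exact h.edge2 t ht e hs hc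
    rw [Finset.sum_congr rfl h0, Finset.sum_const, smul_eq_mul, mul_comm]
  have h2 : ∑ e ∈ (E T).filter (fun e => w ∈ e), (T.filter (fun s => e ⊆ s)).card
      = ∑ t ∈ T, (((E T).filter (fun e => w ∈ e)).filter (fun e => e ⊆ t)).card := by
    simp only [Finset.card_filter]
    exact Finset.sum_comm
  have h3 : ∀ t ∈ T, (((E T).filter (fun e => w ∈ e)).filter (fun e => e ⊆ t)).card = if w ∈ t then 2 else 0 := by
    intro t ht
    split_ifs with hw
    · have h3 := h.card3 t ht
      have : (t.erase w).card = 2 := by rw [Finset.card_erase_of_mem hw]; omega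
      rw [← this]
      symm
      apply Finset.card_bij (fun y _ => ({w, y} : Finset V))
      · intro y hy
        rw [Finset.mem_filter, Finset.mem_filter]
        have hs : ({w, y} : Finset V) ⊆ t := by
          intro z hz
          simp only [Finset.mem_insert, Finset.mem_singleton] at hz
          rcases hz with rfl | rfl
          · exact hw
          · exact Finset.mem_of_mem_erase hy
        exact ⟨⟨mem_E.mpr ⟨Finset.card_pair (Finset.ne_of_mem_erase hy).symm, t, ht, hs⟩, by simp⟩, hs⟩
      · intro y hy y' hy' heq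
        have : y ∈ ({w, y'} : Finset V) := by rw [← heq]; simp
        simp only [Finset.mem_insert, Finset.mem_singleton] at this
        rcases this with h4 | h4
        · exact absurd h4 (Finset.ne_of_mem_erase hy)
        · exact h4
      · intro e he
        rw [Finset.mem_filter, Finset.mem_filter] at he
        have hcard : e.card = 2 := (mem_E.mp he.1.1).1
        have hc1 : (e.erase w).card = 1 := by rw [Finset.card_erase_of_mem he.1.2]; omega
        obtain ⟨y, hy⟩ := Finset.card_eq_one.mp hc1
        have hye : y ∈ e.erase w := by rw [hy]; simp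
        refine ⟨y, Finset.mem_erase.mpr ⟨Finset.ne_of_mem_erase hye, he.2 (Finset.mem_of_mem_erase hye)⟩, ?_⟩
        rw [← Finset.insert_erase he.1.2, hy]
    · rw [Finset.card_eq_zero, Finset.filter_eq_empty_iff]
      intro e he hs
      rw [Finset.mem_filter] at he
      exact hw (hs he.2)
  rw [Finset.sum_congr rfl h3, ← Finset.sum_filter, Finset.sum_const, smul_eq_mul] at h2
  omega

theorem colour (h : Surf T) (hcard : T.card = 2 * Fintype.card V + 8) :
    ∃ c : V → Fin 15, ∀ a b, D T a b → c a ≠ c b := by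
  classical
  by_contra hno
  -- minimal W
  have hex : ∃ W : Finset V, ¬ ∃ c : V → Fin 15, ∀ a ∈ W, ∀ b ∈ W, D T a b → c a ≠ c b := by
    refine ⟨univ, ?_⟩
    rintro ⟨c, hc⟩
    exact hno ⟨c, fun a b => hc a (Finset.mem_univ _) b (Finset.mem_univ _)⟩
  obtain ⟨W, hWmem, hWmin⟩ : ∃ W : Finset V, (¬ ∃ c : V → Fin 15, ∀ a ∈ W, ∀ b ∈ W, D T a b → c a ≠ c b) ∧
      ∀ W' : Finset V, W' ⊂ W → ∃ c : V → Fin 15, ∀ a ∈ W', ∀ b ∈ W', D T a b → c a ≠ c b := by
    obtain ⟨W0, hW0⟩ := hex
    induction W0 using Finset.strongInduction with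
    | H s ih =>
      by_cases hall : ∀ W' : Finset V, W' ⊂ s → ∃ c : V → Fin 15, ∀ a ∈ W', ∀ b ∈ W', D T a b → c a ≠ c b
      · exact ⟨s, hW0, hall⟩
      · push Not at hall
        obtain ⟨W', hW', hcc⟩ := hall
        apply ih W' hW'
        push Not
        exact hcc
  have hdeg : ∀ w ∈ W, 15 ≤ (N T W w).card := by
    intro w hw
    by_contra hlt
    push Not at hlt
    obtain ⟨c, hc⟩ := hWmin (W.erase w) (Finset.erase_ssubset hw)
    have hfree : ∃ i : Fin 15, i ∉ (N T W w).image c := by
      by_contra hall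
      push Not at hall
      have h1 : (univ : Finset (Fin 15)) ⊆ (N T W w).image c := fun i _ => hall i
      have h2 := Finset.card_le_card h1
      have h3 := Finset.card_image_le (s := N T W w) (f := c)
      simp at h2
      omega
    obtain ⟨i, hi⟩ := hfree
    apply hWmem
    refine ⟨Function.update c w i, ?_⟩
    intro a ha b hb hD
    have hab := hD.1
    by_cases haw : a = w
    · subst haw
      rw [Function.update_self, Function.update_of_ne hab.symm]
      intro heq
      apply hi
      rw [Finset.mem_image]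
      exact ⟨b, mem_N.mpr ⟨hb, hD⟩, heq.symm⟩
    · by_cases hbw : b = w
      · subst hbw
        rw [Function.update_self, Function.update_of_ne haw]
        intro heq
        apply hi
        rw [Finset.mem_image]
        exact ⟨a, mem_N.mpr ⟨ha, D_symm hD⟩, heq⟩
      · rw [Function.update_of_ne haw, Function.update_of_ne hbw]
        exact hc a (Finset.mem_erase.mpr ⟨haw, ha⟩) b (Finset.mem_erase.mpr ⟨hbw, hb⟩) hD
  have hWne : W.Nonempty := by
    by_contra hempty
    rw [Finset.not_nonempty_iff_eq_empty] at hempty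
    apply hWmem
    refine ⟨fun _ => 0, ?_⟩
    intro a ha
    rw [hempty] at ha; simp at ha
  have hW16 : 16 ≤ W.card := by
    obtain ⟨w, hw⟩ := hWne
    have h1 := hdeg w hw
    have h2 : insert w (N T W w) ⊆ W := by
      intro z hz
      rw [Finset.mem_insert] at hz
      rcases hz with rfl | hz
      · exact hw
      · exact (mem_N.mp hz).1
    have h3 : w ∉ N T W w := by
      intro hh
      exact (mem_N.mp hh).2.1 rfl
    have h4 := Finset.card_le_card h2
    rw [Finset.card_insert_of_notMem h3] at h4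
    omega
  have hsum := sum_N (W := W) h
  have hsum2 : 15 * W.card ≤ ∑ w ∈ W, (N T W w).card := by
    rw [mul_comm, ← smul_eq_mul]
    exact Finset.card_nsmul_le_sum _ _ _ hdeg
  have hcardW : W.card + (Wᶜ).card = Fintype.card V := Finset.card_add_card_compl W
  by_cases hU : (Wᶜ).Nonempty
  · have hdeg2 : ∀ a ∈ W, ∃ b ∈ W, ∃ c ∈ W, b ≠ c ∧ D T a b ∧ D T a c := by
      intro a ha
      have h1 := hdeg a ha
      obtain ⟨b, hb, c, hc, hbc⟩ := Finset.one_lt_card.mp (by omega : 1 < (N T W a).card)
      rw [mem_N] at hb hc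
      exact ⟨b, hb.1, c, hc.1, hbc, hb.2, hc.2⟩
    obtain ⟨B, hB⟩ := exists_ctx h W hdeg2
    have := main_ineq hB hWne hU
    omega
  · rw [Finset.not_nonempty_iff_eq_empty, Finset.compl_eq_empty_iff] at hU
    subst hU
    rw [Finset.card_univ] at *
    -- PW = E ∪ image opp
    have hPW : PW T univ = E T ∪ (E T).image (opp T) := by
      ext p
      simp only [PW, Finset.mem_filter, Finset.mem_powersetCard, Finset.subset_univ, true_and, Finset.mem_union,
        Finset.mem_image]
      constructor
      · exact fun hh => hh.2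
      · rintro (hh | ⟨e, he, rfl⟩)
        · exact ⟨(mem_E.mp hh).1, Or.inl hh⟩
        · exact ⟨card_opp h he, Or.inr ⟨e, he, rfl⟩⟩
    have hE : 2 * (E T).card = 3 * T.card := by
      have h1 := two_mul_EW h univ
      have h2 : EW T univ = E T := by ext e; simp [mem_EW]
      rw [h2] at h1
      rw [h1]
      have : ∀ t ∈ T, ((t ∩ univ).card).choose 2 = 3 := by
        intro t ht
        rw [Finset.inter_univ, h.card3 t ht]; rfl
      rw [Finset.sum_congr rfl this, Finset.sum_const, smul_eq_mul, mul_comm]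
    have hu := Finset.card_union_le (E T) ((E T).image (opp T))
    have hi := Finset.card_image_le (s := E T) (f := opp T)
    rw [← hPW] at hu
    have hn : Fintype.card V = 16 := by omega
    have hPWc : (PW T univ).card = 120 := by omega
    have hEc : (E T).card = 60 := by omega
    have himg : ((E T).image (opp T)).card = (E T).card := by omega
    have hinj : Set.InjOn (opp T) (E T : Set (Finset V)) := Finset.card_image_iff.mp himg
    have hdisj : Disjoint (E T) ((E T).image (opp T)) := by
      rw [← Finset.card_union_eq_card_add_card, ← hPW]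
      omega
    -- degree of a vertex
    obtain ⟨w, _⟩ := hWne
    have hNw : (N T univ w).card = 15 := by
      by_contra hne
      have h1 := hdeg w (Finset.mem_univ _)
      have : ∑ a ∈ (univ : Finset V), 15 < ∑ a ∈ (univ : Finset V), (N T univ a).card := by
        apply Finset.sum_lt_sum
        · intro i hi; exact hdeg i hi
        · exact ⟨w, Finset.mem_univ _, by omega⟩
      rw [Finset.sum_const, Finset.card_univ, smul_eq_mul] at this
      omega
    rw [card_N h (Finset.mem_univ _), hPW, Finset.filter_union,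
      Finset.card_union_of_disjoint (Finset.disjoint_filter_filter hdisj)] at hNw
    have h5 : (((E T).image (opp T)).filter (fun p => w ∈ p)).card = ((E T).filter (fun e => w ∈ opp T e)).card := by
      rw [Finset.filter_image, Finset.card_image_of_injOn]
      intro a ha b hb
      simp only [Finset.coe_filter, Set.mem_ofPred_eq] at ha hb
      exact hinj ha.1 hb.1
    rw [h5, card_triangles_at h, card_edges_at h] at hNw
    omega

theorem colour' (h : Surf T) (hcard : T.card = 2 * Fintype.card V + 8) :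
    ∃ c : V → Fin 15, ∀ t₁ ∈ T, ∀ t₂ ∈ T, (t₁ ∩ t₂).card = 2 →
          Set.InjOn c (↑(t₁ ∪ t₂) : Set V) := by
  obtain ⟨c, hc⟩ := colour h hcard
  refine ⟨c, ?_⟩
  intro t₁ ht₁ t₂ ht₂ hcc a ha b hb hab
  by_contra hne
  apply hc a b _ hab
  obtain ⟨x, hx, hx1⟩ := tri_cases h ht₁ hcc Finset.inter_subset_left
  obtain ⟨y, hy, hy1⟩ := tri_cases h ht₂ hcc Finset.inter_subset_right
  set e := t₁ ∩ t₂ with he
  have heE : e ∈ E T := mem_E.mpr ⟨hcc, t₁, ht₁, Finset.inter_subset_left⟩
  obtain ⟨p, q, hpq, hepq⟩ := Finset.card_eq_two.mp hcc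
  have hpair : ∀ t ∈ T, a ∈ t → b ∈ t → D T a b := by
    intro t ht h1 h2
    rw [D_iff h]
    refine ⟨hne, Or.inl (mem_E.mpr ⟨Finset.card_pair hne, t, ht, ?_⟩)⟩
    intro z hz
    simp only [Finset.mem_insert, Finset.mem_singleton] at hz
    rcases hz with rfl | rfl <;> assumption
  rw [Finset.coe_union, Set.mem_union, Finset.mem_coe, Finset.mem_coe] at ha hb
  have hxq : Q T p q x := by
    rw [← Q_rot]; unfold Q; rw [← hepq, ← hx1]; exact ht₁
  have hyq : Q T p q y := by
    rw [← Q_rot]; unfold Q; rw [← hepq, ← hy1]; exact ht₂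
  by_cases ha1 : a ∈ t₁
  · by_cases hb1 : b ∈ t₁
    · exact hpair t₁ ht₁ ha1 hb1
    · have hb2 : b ∈ t₂ := by tauto
      by_cases ha2 : a ∈ t₂
      · exact hpair t₂ ht₂ ha2 hb2
      · have hax : a = x := by
          rw [hx1, Finset.mem_insert] at ha1
          rcases ha1 with h1 | h1
          · exact h1
          · exact absurd (Finset.mem_inter.mp h1).2 ha2
        have hby : b = y := by
          rw [hy1, Finset.mem_insert] at hb2
          rcases hb2 with h1 | h1
          · exact h1
          · exact absurd (Finset.mem_inter.mp h1).1 hb1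
        subst hax; subst hby
        exact ⟨hne, Or.inr ⟨p, q, hxq, hyq⟩⟩
  · have ha2 : a ∈ t₂ := by tauto
    by_cases hb2 : b ∈ t₂
    · exact hpair t₂ ht₂ ha2 hb2
    · have hb1 : b ∈ t₁ := by tauto
      have hay : a = y := by
        rw [hy1, Finset.mem_insert] at ha2
        rcases ha2 with h1 | h1
        · exact h1
        · exact absurd (Finset.mem_inter.mp h1).1 ha1
      have hbx : b = x := by
        rw [hx1, Finset.mem_insert] at hb1
        rcases hb1 with h1 | h1
        · exact h1
        · exact absurd (Finset.mem_inter.mp h1).2 hb2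
      subst hay; subst hbx
      exact ⟨hne, Or.inr ⟨p, q, hyq, hxq⟩⟩

end H41
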