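import Pool.Agent.H41.Basic

set_option autoImplicit false
set_option linter.unusedSectionVars false

namespace H41

open Finset

variable {V : Type*} [Fintype V] [DecidableEq V] {T : Finset (Finset V)}

/-- edges inside a set -/
def EW (T : Finset (Finset V)) (W : Finset V) : Finset (Finset V) := (E T).filter (fun e => e ⊆ W)

lemma mem_EW {W e : Finset V} : e ∈ EW T W ↔ e ∈ E T ∧ e ⊆ W := by
  simp [EW]

/-- S3 : double counting -/
lemma two_mul_EW (h : Surf T) (W : Finset V) :
    2 * (EW T W).card = ∑ t ∈ T, ((t ∩ W).card).choose 2 := by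
  have h1 : ∑ e ∈ EW T W, (T.filter (fun s => e ⊆ s)).card = 2 * (EW T W).card := by
    have h0 : ∀ e ∈ EW T W, (T.filter (fun s => e ⊆ s)).card = 2 := by
      intro e he
      rw [mem_EW, mem_E] at he
      obtain ⟨⟨hc, t, ht, hs⟩, _⟩ := he
      exact h.edge2 t ht e hs hc
    rw [Finset.sum_congr rfl h0, Finset.sum_const, smul_eq_mul, mul_comm]
  have h2 : ∑ e ∈ EW T W, (T.filter (fun s => e ⊆ s)).card
      = ∑ t ∈ T, ((EW T W).filter (fun e => e ⊆ t)).card := by
    simp only [Finset.card_filter]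
    exact Finset.sum_comm
  rw [← h1, h2]
  apply Finset.sum_congr rfl
  intro t ht
  rw [← Finset.card_powersetCard]
  congr 1
  ext e
  simp only [Finset.mem_filter, mem_EW, mem_E, Finset.mem_powersetCard, Finset.subset_inter_iff]
  constructor
  · rintro ⟨⟨⟨hc, _⟩, hW⟩, het⟩
    exact ⟨⟨het, hW⟩, hc⟩
  · rintro ⟨⟨het, hW⟩, hc⟩
    exact ⟨⟨⟨hc, t, ht, het⟩, hW⟩, het⟩

lemma inter_compl_card (h : Surf T) (W : Finset V) {t : Finset V} (ht : t ∈ T) :
    (t ∩ W).card + (t ∩ Wᶜ).card = 3 := by
  rw [← h.card3 t ht, ← Finset.card_union_of_disjoint]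
  · congr 1
    ext x; simp; tauto
  · rw [Finset.disjoint_left]
    intro x; simp; tauto

/-- number of triangles with exactly j vertices in W -/
def fW (T : Finset (Finset V)) (W : Finset V) (j : ℕ) : ℕ := (T.filter (fun t => (t ∩ W).card = j)).card

lemma sum_choose (h : Surf T) (W : Finset V) :
    ∑ t ∈ T, ((t ∩ W).card).choose 2 = fW T W 2 + 3 * fW T W 3 := by
  have : ∀ t ∈ T, ((t ∩ W).card).choose 2 =
      (if (t ∩ W).card = 2 then 1 else 0) + 3 * (if (t ∩ W).card = 3 then 1 else 0) := by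
    intro t ht
    have := inter_compl_card h W ht
    have h4 : (t ∩ W).card ≤ 3 := by omega
    interval_cases hh : (t ∩ W).card <;> simp
  rw [Finset.sum_congr rfl this, Finset.sum_add_distrib, ← Finset.mul_sum]
  unfold fW
  simp only [Finset.sum_boole, Nat.cast_id]

lemma fW_compl (h : Surf T) (W : Finset V) (j : ℕ) (hj : j ≤ 3) : fW T Wᶜ j = fW T W (3 - j) := by
  unfold fW
  congr 1
  apply Finset.filter_congr
  intro t ht
  have := inter_compl_card h W ht
  omega

lemma card_T (h : Surf T) (W : Finset V) :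
    T.card = fW T W 0 + fW T W 1 + fW T W 2 + fW T W 3 := by
  unfold fW
  have : T.card = ∑ t ∈ T, ((if (t ∩ W).card = 0 then 1 else 0) + (if (t ∩ W).card = 1 then 1 else 0)
     + (if (t ∩ W).card = 2 then 1 else 0) + (if (t ∩ W).card = 3 then 1 else 0)) := by
    rw [Finset.card_eq_sum_ones]
    apply Finset.sum_congr rfl
    intro t ht
    have := inter_compl_card h W ht
    have h4 : (t ∩ W).card ≤ 3 := by omega
    interval_cases hh : (t ∩ W).card <;> simp
  rw [this]
  simp only [Finset.sum_add_distrib, Finset.sum_boole, Nat.cast_id]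

/-- S2 -/
lemma f2_le (h : Surf T) (W : Finset V) :
    fW T W 2 + 2 * ((EW T W).filter (fun e => opp T e ⊆ W)).card ≤ 2 * (EW T W).card := by
  have h1 : fW T W 2 ≤ 2 * ((EW T W).filter (fun e => ¬ opp T e ⊆ W)).card := by
    unfold fW
    apply Finset.card_le_mul_card_image_of_maps_to (f := fun t => t ∩ W)
    · intro t ht
      rw [Finset.mem_filter] at ht
      obtain ⟨ht, hc⟩ := ht
      have hE : t ∩ W ∈ E T := mem_E.mpr ⟨hc, t, ht, Finset.inter_subset_left⟩
      rw [Finset.mem_filter, mem_EW]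
      refine ⟨⟨hE, Finset.inter_subset_right⟩, ?_⟩
      intro hsub
      obtain ⟨z, hz, htz⟩ := tri_cases h ht hc Finset.inter_subset_left
      have hz1 : z ∈ opp T (t ∩ W) := mem_opp.mpr ⟨hz, by rw [← htz]; exact ht⟩
      have hzW := hsub hz1
      apply hz
      rw [Finset.mem_inter]
      refine ⟨?_, hzW⟩
      rw [htz]; simp
    · intro e he
      rw [Finset.mem_filter, mem_EW, mem_E] at he
      obtain ⟨⟨⟨hc, t, ht, hs⟩, _⟩, _⟩ := he
      rw [← h.edge2 t ht e hs hc]
      apply Finset.card_le_card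
      intro s hs'
      simp only [Finset.mem_filter] at hs' ⊢
      refine ⟨hs'.1.1, ?_⟩
      rw [← hs'.2]; exact Finset.inter_subset_left
  have h2 := Finset.card_filter_add_card_filter_not (s := EW T W) (fun e => opp T e ⊆ W)
  omega

end H41
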