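import Mathlib

set_option autoImplicit false
set_option linter.unusedSectionVars false
set_option linter.unusedVariables false

namespace H41

open Finset

/-- an orientable triangulation with 10 vertices and 28 triangles (genus 3), each triangle oriented -/
def L0 : List (Fin 10 × Fin 10 × Fin 10) :=
  [(0, 1, 3), (0, 2, 7), (0, 4, 8), (0, 5, 6), (0, 6, 2), (0, 7, 1), (0, 8, 9), (0, 9, 5), (1, 7, 8), (2, 6, 1),
   (3, 1, 6), (3, 2, 9), (3, 5, 8), (3, 6, 7), (3, 7, 5), (3, 8, 2), (3, 9, 4), (4, 0, 3), (4, 9, 6), (5, 7, 4),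
   (5, 9, 1), (6, 5, 4), (7, 2, 4), (7, 6, 8), (8, 4, 2), (8, 5, 1), (9, 2, 1), (9, 8, 6)]

def T0 : Finset (Finset (Fin 10)) := (L0.map (fun p => ({p.1, p.2.1, p.2.2} : Finset (Fin 10)))).toFinset

/-- entry `(a, b)` is the third vertex of the triangle containing the oriented edge `a b` (99 if none) -/
def tab : List (List ℕ) :=
  [[99, 3, 7, 4, 8, 6, 2, 1, 9, 5],
   [7, 99, 6, 0, 99, 9, 3, 8, 5, 2],
   [6, 9, 99, 8, 7, 99, 1, 0, 4, 3],
   [1, 6, 9, 99, 0, 8, 7, 5, 2, 4],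
   [3, 99, 8, 9, 99, 7, 5, 2, 0, 6],
   [9, 8, 99, 7, 6, 99, 0, 4, 3, 1],
   [5, 2, 0, 1, 9, 4, 99, 3, 7, 8],
   [2, 0, 4, 6, 5, 3, 8, 99, 1, 99],
   [4, 7, 3, 5, 2, 1, 9, 6, 99, 0],
   [8, 5, 1, 2, 3, 0, 4, 99, 6, 99]]

/-- positively oriented -/
def pos (a b c : Fin 10) : Bool := (tab.getD a.val []).getD b.val 99 == c.val

def sg (a b c : Fin 10) : ℤ := if pos a b c then 1 else if pos b a c then -1 else 0

/-- the links, as cycles -/
def cyc : List (List (Fin 10)) :=
  [[1, 3, 4, 8, 9, 5, 6, 2, 7], [0, 7, 8, 5, 9, 2, 6, 3], [0, 6, 1, 9, 3, 8, 4, 7], [0, 1, 6, 7, 5, 8, 2, 9, 4],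
   [0, 3, 9, 6, 5, 7, 2, 8], [0, 9, 1, 8, 3, 7, 4, 6], [0, 5, 4, 9, 8, 7, 3, 1, 2], [0, 2, 4, 5, 3, 6, 8, 1],
   [0, 4, 2, 3, 5, 1, 7, 6, 9], [0, 8, 6, 4, 3, 2, 1, 5]]

def rk (v a : Fin 10) : ℕ := (cyc.getD v.val []).idxOf a

lemma mem_T0 : ∀ a b c : Fin 10, ({a, b, c} : Finset (Fin 10)) ∈ T0 ↔ (pos a b c = true ∨ pos b a c = true) := by
  decide +kernel

lemma card_T0 : T0.card = 28 := by decide +kernel

lemma T0_form : ∀ t ∈ T0, ∃ a b c, t = {a, b, c} ∧ a ≠ b ∧ a ≠ c ∧ b ≠ c := by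
  intro t ht
  simp only [T0, List.mem_toFinset, List.mem_map] at ht
  obtain ⟨p, hp, rfl⟩ := ht
  refine ⟨p.1, p.2.1, p.2.2, rfl, ?_⟩
  revert p
  decide +kernel

lemma T0_card3 : ∀ t ∈ T0, t.card = 3 := by
  intro t ht
  obtain ⟨a, b, c, rfl, h1, h2, h3⟩ := T0_form t ht
  exact Finset.card_eq_three.mpr ⟨a, b, c, h1, h2, h3, rfl⟩

lemma T0_cov : ∀ v : Fin 10, ∃ t ∈ T0, v ∈ t := by decide +kernel

lemma T0_edge_aux : ∀ x y z : Fin 10, (pos z x y = true ∨ pos x z y = true) →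
    (univ.filter (fun z => pos z x y = true ∨ pos x z y = true)).card = 2 := by
  decide +kernel

lemma T0_edge : ∀ t ∈ T0, ∀ e ⊆ t, e.card = 2 → (T0.filter (fun s => e ⊆ s)).card = 2 := by
  intro t ht e he hc
  obtain ⟨x, y, hxy, rfl⟩ := Finset.card_eq_two.mp hc
  have h3 := T0_card3 t ht
  have key : ∀ s ∈ T0, ({x, y} : Finset (Fin 10)) ⊆ s → ∃ z, z ∉ ({x, y} : Finset (Fin 10)) ∧ s = {z, x, y} := by
    intro s hs hes
    have h3 := T0_card3 s hs
    have hc1 : (s \ {x, y}).card = 1 := by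
      rw [Finset.card_sdiff_of_subset hes]; omega
    obtain ⟨z, hz⟩ := Finset.card_eq_one.mp hc1
    have hz1 : z ∈ s \ {x, y} := by rw [hz]; simp
    refine ⟨z, (Finset.mem_sdiff.mp hz1).2, ?_⟩
    have : s = insert z {x, y} := by
      apply Finset.Subset.antisymm
      · intro w hw
        by_cases hw2 : w ∈ ({x, y} : Finset (Fin 10))
        · exact Finset.mem_insert_of_mem hw2
        · have : w ∈ s \ {x, y} := Finset.mem_sdiff.mpr ⟨hw, hw2⟩
          rw [hz, Finset.mem_singleton] at this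
          rw [this]; simp
      · intro w hw
        rcases Finset.mem_insert.mp hw with rfl | hw
        · exact (Finset.mem_sdiff.mp hz1).1
        · exact hes hw
    exact this
  obtain ⟨z, hz, hz1⟩ := key t ht he
  have hp : pos z x y = true ∨ pos x z y = true := by
    rw [← mem_T0, ← hz1]; exact ht
  rw [← T0_edge_aux x y z hp]
  symm
  apply Finset.card_bij (fun w _ => ({w, x, y} : Finset (Fin 10)))
  · intro w hw
    simp only [Finset.mem_filter, Finset.mem_univ, true_and] at hw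
    rw [Finset.mem_filter, mem_T0]
    refine ⟨hw, ?_⟩
    intro q hq
    exact Finset.mem_insert_of_mem hq
  · intro w hw w' hw' heq
    simp only [Finset.mem_filter, Finset.mem_univ, true_and] at hw hw'
    rw [← mem_T0] at hw hw'
    have c1 := T0_card3 _ hw
    have : w ∈ ({w', x, y} : Finset (Fin 10)) := by rw [← heq]; simp
    simp only [Finset.mem_insert, Finset.mem_singleton] at this
    rcases this with h1 | h1 | h1
    · exact h1
    · exfalso
      subst h1
      have : ({w, w, y} : Finset (Fin 10)) = {w, y} := by simp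
      rw [this] at c1
      have := Finset.card_le_two (a := w) (b := y)
      omega
    · exfalso
      subst h1
      have : ({w, x, w} : Finset (Fin 10)) = {w, x} := by ext q; simp; tauto
      rw [this] at c1
      have := Finset.card_le_two (a := w) (b := x)
      omega
  · intro s hs
    rw [Finset.mem_filter] at hs
    obtain ⟨w, hw, rfl⟩ := key s hs.1 hs.2
    refine ⟨w, ?_, rfl⟩
    simp only [Finset.mem_filter, Finset.mem_univ, true_and]
    rw [← mem_T0]; exact hs.1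

lemma T0_rk : ∀ v a b : Fin 10, (pos v a b = true ∨ pos a v b = true) → rk v a = 0 ∨
    ∃ c, (pos v a c = true ∨ pos a v c = true) ∧ rk v c < rk v a := by
  decide +kernel

lemma T0_rk0 : ∀ v a b c d : Fin 10, (pos v a b = true ∨ pos a v b = true) → (pos v c d = true ∨ pos c v d = true) →
    rk v a = 0 → rk v c = 0 → a = c := by
  decide +kernel

lemma T0_link : ∀ v a b : Fin 10, (∃ t ∈ T0, v ∈ t ∧ a ∈ t ∧ v ≠ a) → (∃ t ∈ T0, v ∈ t ∧ b ∈ t ∧ v ≠ b) →
        (SimpleGraph.fromRel (fun x y : Fin 10 => ({v, x, y} : Finset (Fin 10)) ∈ T0)).Reachable a b := by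
  intro v
  have hform : ∀ a, (∃ t ∈ T0, v ∈ t ∧ a ∈ t ∧ v ≠ a) → ∃ b, ({v, a, b} : Finset (Fin 10)) ∈ T0 := by
    rintro a ⟨t, ht, hv, ha, hva⟩
    have h3 := T0_card3 t ht
    have hs : ({v, a} : Finset (Fin 10)) ⊆ t := by
      intro w hw
      simp only [Finset.mem_insert, Finset.mem_singleton] at hw
      rcases hw with rfl | rfl <;> assumption
    have hc1 : (t \ {v, a}).card = 1 := by
      rw [Finset.card_sdiff_of_subset hs, Finset.card_pair hva]; omega
    obtain ⟨z, hz⟩ := Finset.card_eq_one.mp hc1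
    refine ⟨z, ?_⟩
    have : t = {v, a, z} := by
      rw [← Finset.sdiff_union_of_subset hs, hz]
      ext w; simp; tauto
    rw [← this]; exact ht
  have hreach : ∀ n : ℕ, ∀ a b, rk v a ≤ n → ({v, a, b} : Finset (Fin 10)) ∈ T0 → ∃ c d, rk v c = 0 ∧
      ({v, c, d} : Finset (Fin 10)) ∈ T0 ∧
      (SimpleGraph.fromRel (fun x y : Fin 10 => ({v, x, y} : Finset (Fin 10)) ∈ T0)).Reachable a c := by
    intro n
    induction n with
    | zero =>
      intro a b hn h
      exact ⟨a, b, by omega, h, SimpleGraph.Reachable.refl _⟩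
    | succ n ih =>
      intro a b hn h
      rcases T0_rk v a b ((mem_T0 _ _ _).mp h) with h0 | ⟨c, hc, hlt⟩
      · exact ⟨a, b, h0, h, SimpleGraph.Reachable.refl _⟩
      · rw [← mem_T0] at hc
        have hc' : ({v, c, a} : Finset (Fin 10)) ∈ T0 := by rw [Finset.pair_comm]; exact hc
        obtain ⟨d, e, h1, h2, h3⟩ := ih c a (by omega) hc'
        refine ⟨d, e, h1, h2, SimpleGraph.Reachable.trans ?_ h3⟩
        apply SimpleGraph.Adj.reachable
        rw [SimpleGraph.fromRel_adj]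
        refine ⟨?_, Or.inl hc⟩
        rintro rfl
        omega
  intro a b ha hb
  obtain ⟨a', ha'⟩ := hform a ha
  obtain ⟨b', hb'⟩ := hform b hb
  obtain ⟨c, c', hc0, hc, hrc⟩ := hreach _ a a' le_rfl ha'
  obtain ⟨d, d', hd0, hd, hrd⟩ := hreach _ b b' le_rfl hb'
  have : c = d := T0_rk0 v c c' d d' ((mem_T0 _ _ _).mp hc) ((mem_T0 _ _ _).mp hd) hc0 hd0
  subst this
  exact hrc.trans hrd.symm

lemma T0_zero : ∀ a : Fin 10, a ≠ 0 → ∃ t ∈ T0, a ∈ t ∧ (0 : Fin 10) ∈ t := by decide +kernel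

lemma T0_conn : ∀ a b : Fin 10, (SimpleGraph.fromRel (fun x y : Fin 10 => ∃ t ∈ T0, x ∈ t ∧ y ∈ t)).Reachable a b := by
  have h0 : ∀ a : Fin 10, (SimpleGraph.fromRel (fun x y : Fin 10 => ∃ t ∈ T0, x ∈ t ∧ y ∈ t)).Reachable a 0 := by
    intro a
    by_cases ha : a = 0
    · subst ha; exact SimpleGraph.Reachable.refl _
    · apply SimpleGraph.Adj.reachable
      rw [SimpleGraph.fromRel_adj]
      exact ⟨ha, Or.inl (T0_zero a ha)⟩
  intro a b
  exact (h0 a).trans (h0 b).symm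

lemma sg1 : ∀ a b c : Fin 10, sg a b c = - sg b a c := by decide +kernel
lemma sg2 : ∀ a b c : Fin 10, sg a b c = sg b c a := by decide +kernel
lemma sg3 : ∀ a b c : Fin 10, (pos a b c = true ∨ pos b a c = true) → sg a b c = 1 ∨ sg a b c = -1 := by decide +kernel
lemma sg4 : ∀ a b c d : Fin 10, (pos a b c = true ∨ pos b a c = true) → (pos a b d = true ∨ pos b a d = true) → c ≠ d →
    sg a b c = - sg a b d := by decide +kernel

end H41
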