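import Pool.Agent.H41.LemB3

set_option autoImplicit false
set_option linter.unusedSectionVars false
set_option linter.unusedVariables false

namespace H41

open Finset

variable {V : Type*} [Fintype V] [DecidableEq V] {T : Finset (Finset V)}
variable {W : Finset V} {B : Finset (Finset V)} {C : Finset V}

/-- edges of the graph on the complement -/
def EB (T : Finset (Finset V)) (W : Finset V) (B : Finset (Finset V)) : Finset (Finset V) := EW T Wᶜ \ B

def Gam (T : Finset (Finset V)) (W : Finset V) (B : Finset (Finset V)) : SimpleGraph {x : V // x ∉ W} where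
  Adj x y := ({x.1, y.1} : Finset V) ∈ EB T W B
  symm := ⟨fun x y h => by rw [Finset.pair_comm]; exact h⟩
  loopless := ⟨fun x h => by
    simp only [EB, Finset.mem_sdiff, mem_EW, mem_E] at h
    have := h.1.1.1
    simp at this⟩

lemma mem_EB_of_sub (hc : Ctx T W B) {t e : Finset V} (ht : t ∈ T) (htW : t ∩ W = ∅) (he : e.card = 2)
    (hs : e ⊆ t) : e ∈ EB T W B := by
  have h := hc.surf
  rw [EB, Finset.mem_sdiff, mem_EW, mem_E]
  have hsub : ∀ z ∈ t, z ∉ W := by
    intro z hz hzW
    have : z ∈ t ∩ W := Finset.mem_inter.mpr ⟨hz, hzW⟩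
    rw [htW] at this; simp at this
  refine ⟨⟨⟨he, t, ht, hs⟩, ?_⟩, ?_⟩
  · intro z hz
    rw [Finset.mem_compl]
    exact hsub z (hs hz)
  · intro hB
    obtain ⟨z, hz, rfl⟩ := tri_cases h ht he hs
    have h1 := (hc.Bsub _ hB).2.2.1
    have h2 : z ∈ opp T e := mem_opp.mpr ⟨hz, ht⟩
    exact hsub z (by simp) (h1 h2)

def d0 (T : Finset (Finset V)) (W : Finset V) (B : Finset (Finset V)) :
    ({x : V // x ∉ W} → ZMod 2) →ₗ[ZMod 2] ({e : Finset V // e ∈ EB T W B} → ZMod 2) where
  toFun g := fun e => ∑ x : {x : V // x ∉ W}, if x.1 ∈ e.1 then g x else 0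
  map_add' g g' := by
    ext e
    simp only [Pi.add_apply, ← Finset.sum_add_distrib]
    apply Finset.sum_congr rfl
    intro x _
    split_ifs <;> simp
  map_smul' c g := by
    ext e
    simp only [Pi.smul_apply, smul_eq_mul, RingHom.id_apply, Finset.mul_sum]
    apply Finset.sum_congr rfl
    intro x _
    split_ifs <;> simp

def d1 (T : Finset (Finset V)) (W : Finset V) (B : Finset (Finset V)) :
    ({e : Finset V // e ∈ EB T W B} → ZMod 2) →ₗ[ZMod 2] ({t : Finset V // t ∈ T ∧ t ∩ W = ∅} → ZMod 2) where
  toFun g := fun t => ∑ e : {e : Finset V // e ∈ EB T W B}, if e.1 ⊆ t.1 then g e else 0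
  map_add' g g' := by
    ext e
    simp only [Pi.add_apply, ← Finset.sum_add_distrib]
    apply Finset.sum_congr rfl
    intro x _
    split_ifs <;> simp
  map_smul' c g := by
    ext e
    simp only [Pi.smul_apply, smul_eq_mul, RingHom.id_apply, Finset.mul_sum]
    apply Finset.sum_congr rfl
    intro x _
    split_ifs <;> simp

lemma d1_d0 (hc : Ctx T W B) (g : {x : V // x ∉ W} → ZMod 2) : d1 T W B (d0 T W B g) = 0 := by
  have h := hc.surf
  ext t
  obtain ⟨t, ht, htW⟩ := t
  change ∑ e : {e : Finset V // e ∈ EB T W B}, (if e.1 ⊆ t then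
    ∑ x : {x : V // x ∉ W}, (if x.1 ∈ e.1 then g x else 0) else 0) = 0
  have h1 : ∀ e : {e : Finset V // e ∈ EB T W B}, (if e.1 ⊆ t then
    ∑ x : {x : V // x ∉ W}, (if x.1 ∈ e.1 then g x else 0) else 0) =
    ∑ x : {x : V // x ∉ W}, (if e.1 ⊆ t ∧ x.1 ∈ e.1 then g x else 0) := by
    intro e
    split_ifs with h2
    · simp [h2]
    · simp [h2]
  simp only [h1]
  rw [Finset.sum_comm]
  apply Finset.sum_eq_zero
  intro x _
  rw [← Finset.sum_filter, Finset.sum_const]
  have hev : Even ((univ.filter (fun e : {e : Finset V // e ∈ EB T W B} => e.1 ⊆ t ∧ x.1 ∈ e.1)).card) := by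
    by_cases hx : x.1 ∈ t
    · have : (univ.filter (fun e : {e : Finset V // e ∈ EB T W B} => e.1 ⊆ t ∧ x.1 ∈ e.1)).card
          = (t.erase x.1).card := by
        symm
        apply Finset.card_bij (fun y hy => (⟨{x.1, y}, mem_EB_of_sub hc ht htW
          (Finset.card_pair (Finset.ne_of_mem_erase hy).symm) (by
            intro z hz
            simp only [Finset.mem_insert, Finset.mem_singleton] at hz
            rcases hz with rfl | rfl
            · exact hx
            · exact Finset.mem_of_mem_erase hy)⟩ : {e : Finset V // e ∈ EB T W B}))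
        · intro y hy
          simp only [Finset.mem_filter, Finset.mem_univ, true_and]
          constructor
          · intro z hz
            simp only [Finset.mem_insert, Finset.mem_singleton] at hz
            rcases hz with rfl | rfl
            · exact hx
            · exact Finset.mem_of_mem_erase hy
          · simp
        · intro y hy y' hy' heq
          simp only [Subtype.mk.injEq] at heq
          have : y ∈ ({x.1, y'} : Finset V) := by rw [← heq]; simp
          simp only [Finset.mem_insert, Finset.mem_singleton] at this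
          rcases this with h3 | h3
          · exact absurd h3 (Finset.ne_of_mem_erase hy)
          · exact h3
        · rintro ⟨e, he⟩ hh
          simp only [Finset.mem_filter, Finset.mem_univ, true_and] at hh
          have hcard : e.card = 2 := by
            simp only [EB, Finset.mem_sdiff, mem_EW, mem_E] at he
            exact he.1.1.1
          have hc1 : (e.erase x.1).card = 1 := by rw [Finset.card_erase_of_mem hh.2]; omega
          obtain ⟨y, hy⟩ := Finset.card_eq_one.mp hc1
          have hye : y ∈ e.erase x.1 := by rw [hy]; simp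
          refine ⟨y, Finset.mem_erase.mpr ⟨Finset.ne_of_mem_erase hye, hh.1 (Finset.mem_of_mem_erase hye)⟩, ?_⟩
          simp only [Subtype.mk.injEq]
          rw [← Finset.insert_erase hh.2, hy]
      rw [this, Finset.card_erase_of_mem hx, h.card3 t ht]
      exact ⟨1, rfl⟩
    · rw [Finset.filter_eq_empty_iff.mpr]
      · simp
      · intro e _ hh
        exact hx (hh.1 hh.2)
  obtain ⟨r, hr⟩ := hev
  rw [hr, ← two_mul, mul_smul, nsmul_eq_mul]
  have : ((2 : ℕ) : ZMod 2) = 0 := by decide
  rw [this, zero_mul]

/-- kernel of d0 is constant on components -/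
lemma ker_const (hc : Ctx T W B) (g : {x : V // x ∉ W} → ZMod 2) (hg : d0 T W B g = 0)
    (x y : {x : V // x ∉ W}) (hr : (Gam T W B).Reachable x y) : g x = g y := by
  obtain ⟨p⟩ := hr
  induction p with
  | nil => rfl
  | @cons u v w hadj p ih =>
    rw [← ih]
    have hE : ({u.1, v.1} : Finset V) ∈ EB T W B := hadj
    have huv : u ≠ v := hadj.ne
    have h1 : (d0 T W B g) ⟨_, hE⟩ = 0 := by rw [hg]; rfl
    change ∑ x : {x : V // x ∉ W}, (if x.1 ∈ ({u.1, v.1} : Finset V) then g x else 0) = 0 at h1
    rw [← Finset.sum_filter] at h1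
    have h2 : (univ.filter (fun x : {x : V // x ∉ W} => x.1 ∈ ({u.1, v.1} : Finset V))) = {u, v} := by
      ext z
      simp only [Finset.mem_filter, Finset.mem_univ, true_and, Finset.mem_insert, Finset.mem_singleton,
        Subtype.ext_iff]
    rw [h2, Finset.sum_pair huv] at h1
    have key : ∀ a b : ZMod 2, a + b = 0 → a = b := by decide
    exact key _ _ h1

open Classical in
lemma ker_dim (hc : Ctx T W B) :
    Module.finrank (ZMod 2) (LinearMap.ker (d0 T W B)) ≤ Fintype.card (Gam T W B).ConnectedComponent := by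
  have : Fact (Nat.Prime 2) := ⟨Nat.prime_two⟩
  let φ : ({x : V // x ∉ W} → ZMod 2) →ₗ[ZMod 2] ((Gam T W B).ConnectedComponent → ZMod 2) :=
    { toFun := fun g c => g c.out
      map_add' := fun _ _ => rfl
      map_smul' := fun _ _ => rfl }
  have hinj : Function.Injective (φ.comp (LinearMap.ker (d0 T W B)).subtype) := by
    rw [← LinearMap.ker_eq_bot, LinearMap.ker_eq_bot']
    rintro ⟨g, hg⟩ h0
    rw [LinearMap.mem_ker] at hg
    apply Subtype.ext
    change g = 0
    ext x
    have h1 : (φ.comp (LinearMap.ker (d0 T W B)).subtype) ⟨g, LinearMap.mem_ker.mpr hg⟩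
      ((Gam T W B).connectedComponentMk x) = 0 := by rw [h0]; rfl
    change g (Quot.out ((Gam T W B).connectedComponentMk x)) = 0 at h1
    rw [Pi.zero_apply, ← h1]
    apply ker_const hc g hg
    apply SimpleGraph.ConnectedComponent.exact
    exact (Quot.out_eq _).symm
  have := LinearMap.finrank_le_finrank_of_injective hinj
  simpa using this

lemma d1_surj (hc : Ctx T W B) (hW : W.Nonempty) : LinearMap.range (d1 T W B) = ⊤ := by
  have : Fact (Nat.Prime 2) := ⟨Nat.prime_two⟩
  have h := hc.surf
  by_contra hne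
  have hlt : LinearMap.range (d1 T W B) < ⊤ := lt_top_iff_ne_top.mpr hne
  obtain ⟨f, hf0, hf⟩ := Submodule.exists_le_ker_of_lt_top _ hlt
  set c : {t : Finset V // t ∈ T ∧ t ∩ W = ∅} → ZMod 2 := fun t => f (Pi.single t 1) with hc'
  have hfs : ∀ v : {t : Finset V // t ∈ T ∧ t ∩ W = ∅} → ZMod 2, f v = ∑ t, v t * c t := by
    intro v
    conv_lhs => rw [pi_eq_sum_univ' v]
    rw [map_sum]
    apply Finset.sum_congr rfl
    intro t _
    rw [map_smul, smul_eq_mul]
  -- some c t ≠ 0
  have hex : ∃ t, c t ≠ 0 := by
    by_contra hall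
    push Not at hall
    apply hf0
    apply LinearMap.ext
    intro v
    rw [hfs v]
    simp [hall]
  -- relation at each edge
  have hrel : ∀ e : {e : Finset V // e ∈ EB T W B},
      ∑ t : {t : Finset V // t ∈ T ∧ t ∩ W = ∅}, (if e.1 ⊆ t.1 then c t else 0) = 0 := by
    intro e
    have h1 : f (d1 T W B (Pi.single e 1)) = 0 := by
      have : d1 T W B (Pi.single e 1) ∈ LinearMap.ker f := hf (LinearMap.mem_range_self _ _)
      exact LinearMap.mem_ker.mp this
    rw [hfs] at h1
    refine Eq.trans ?_ h1
    apply Finset.sum_congr rfl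
    intro t _
    change (if e.1 ⊆ t.1 then c t else 0) = (∑ e' : {e : Finset V // e ∈ EB T W B}, if e'.1 ⊆ t.1 then
      (Pi.single e (1 : ZMod 2) : {e : Finset V // e ∈ EB T W B} → ZMod 2) e' else 0) * c t
    have h2 : (∑ e' : {e : Finset V // e ∈ EB T W B}, if e'.1 ⊆ t.1 then
      (Pi.single e (1 : ZMod 2) : {e : Finset V // e ∈ EB T W B} → ZMod 2) e' else 0) = if e.1 ⊆ t.1 then 1 else 0 := by
      rw [Finset.sum_eq_single e]
      · simp
      · intro b _ hb
        simp [Pi.single_apply, hb]
      · intro hh; exact absurd (Finset.mem_univ _) hh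
    rw [h2]
    split_ifs <;> simp
  -- closed set
  let S : Set (Finset V) := {t | ∃ ht : t ∈ T ∧ t ∩ W = ∅, c ⟨t, ht⟩ ≠ 0}
  have hS : ∀ t ∈ T, t ∈ S := by
    apply strong_conn h S
    · obtain ⟨⟨t, ht⟩, htc⟩ := hex
      exact ⟨t, ht.1, ht, htc⟩
    · rintro t htT ⟨ht, htc⟩ t' ht'T e he hes hes'
      have heB : e ∈ EB T W B := mem_EB_of_sub hc ht.1 ht.2 he hes
      by_cases htt : t = t'
      · subst htt; exact ⟨ht, htc⟩
      have hr := hrel ⟨e, heB⟩
      have h2 : T.filter (fun s => e ⊆ s) = {t, t'} := by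
        symm
        apply Finset.eq_of_subset_of_card_le
        · intro s hs
          simp only [Finset.mem_insert, Finset.mem_singleton] at hs
          rw [Finset.mem_filter]
          rcases hs with rfl | rfl
          · exact ⟨htT, hes⟩
          · exact ⟨ht'T, hes'⟩
        · rw [h.edge2 t htT e hes he, Finset.card_pair htt]
      have honly : ∀ s : {t : Finset V // t ∈ T ∧ t ∩ W = ∅}, e ⊆ s.1 → s.1 = t ∨ s.1 = t' := by
        intro s hs
        have : s.1 ∈ T.filter (fun s => e ⊆ s) := Finset.mem_filter.mpr ⟨s.2.1, hs⟩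
        rw [h2] at this
        simpa using this
      by_cases ht'W : t' ∩ W = ∅
      · refine ⟨⟨ht'T, ht'W⟩, ?_⟩
        intro h0
        apply htc
        rw [← Finset.sum_filter] at hr
        have h3 : (univ.filter (fun s : {t : Finset V // t ∈ T ∧ t ∩ W = ∅} => e ⊆ s.1)) =
            {⟨t, ht⟩, ⟨t', ht'T, ht'W⟩} := by
          ext s
          simp only [Finset.mem_filter, Finset.mem_univ, true_and, Finset.mem_insert, Finset.mem_singleton,
            Subtype.ext_iff]
          constructor
          · exact honly s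
          · rintro (h4 | h4) <;> rw [h4] <;> assumption
        rw [h3, Finset.sum_pair (by rw [Ne, Subtype.mk.injEq]; exact htt), h0, add_zero] at hr
        exact hr
      · exfalso
        apply htc
        rw [← Finset.sum_filter] at hr
        have h3 : (univ.filter (fun s : {t : Finset V // t ∈ T ∧ t ∩ W = ∅} => e ⊆ s.1)) = {⟨t, ht⟩} := by
          ext s
          simp only [Finset.mem_filter, Finset.mem_univ, true_and, Finset.mem_singleton, Subtype.ext_iff]
          constructor
          · intro hs
            rcases honly s hs with h4 | h4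
            · exact h4
            · exfalso
              apply ht'W
              rw [← h4]; exact s.2.2
          · intro h4; rw [h4]; exact hes
        rw [h3, Finset.sum_singleton] at hr
        exact hr
  obtain ⟨w, hw⟩ := hW
  obtain ⟨t, ht, hwt⟩ := h.cov w
  obtain ⟨⟨_, htW⟩, _⟩ := hS t ht
  have : w ∈ t ∩ W := Finset.mem_inter.mpr ⟨hwt, hw⟩
  rw [htW] at this
  simp at this

open Classical in
lemma lemA (hc : Ctx T W B) (hW : W.Nonempty) :
    (Wᶜ).card + fW T W 0 ≤ Fintype.card (Gam T W B).ConnectedComponent + (EB T W B).card := by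
  have : Fact (Nat.Prime 2) := ⟨Nat.prime_two⟩
  have h1 := LinearMap.finrank_range_add_finrank_ker (d0 T W B)
  have h2 := LinearMap.finrank_range_add_finrank_ker (d1 T W B)
  have h3 := ker_dim hc
  have h4 : Module.finrank (ZMod 2) (LinearMap.range (d0 T W B)) ≤ Module.finrank (ZMod 2) (LinearMap.ker (d1 T W B)) := by
    apply Submodule.finrank_mono
    rintro _ ⟨g, rfl⟩
    rw [LinearMap.mem_ker]
    exact d1_d0 hc g
  rw [d1_surj hc hW, finrank_top] at h2
  simp only [Module.finrank_fintype_fun_eq_card] at h1 h2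
  have e1 : Fintype.card {x : V // x ∉ W} = (Wᶜ).card := by
    rw [Fintype.card_subtype]
    congr 1; ext; simp
  have e2 : Fintype.card {e : Finset V // e ∈ EB T W B} = (EB T W B).card := by
    simp
  have e3 : Fintype.card {t : Finset V // t ∈ T ∧ t ∩ W = ∅} = fW T W 0 := by
    rw [Fintype.card_subtype]
    unfold fW
    congr 1
    ext t; simp [Finset.card_eq_zero]
  rw [e1] at h1
  rw [e2, e3] at h2
  omega

end H41
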