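import Pool.Agent.H41.Count

set_option autoImplicit false
set_option linter.unusedSectionVars false

namespace H41

open Finset

variable {V : Type*} [Fintype V] [DecidableEq V] {T : Finset (Finset V)}

/-- diagonal adjacency -/
def D (T : Finset (Finset V)) (a b : V) : Prop :=
  a ≠ b ∧ ((∃ z, Q T a b z) ∨ ∃ x y, Q T x y a ∧ Q T x y b)

lemma D_symm {a b : V} (h : D T a b) : D T b a := by
  obtain ⟨hne, ⟨z, hz⟩ | ⟨x, y, h1, h2⟩⟩ := h
  · exact ⟨hne.symm, Or.inl ⟨z, Q_swap12.mp hz⟩⟩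
  · exact ⟨hne.symm, Or.inr ⟨x, y, h2, h1⟩⟩

structure Ctx (T : Finset (Finset V)) (W : Finset V) (B : Finset (Finset V)) : Prop where
  surf : Surf T
  Bsub : ∀ e ∈ B, e ∈ E T ∧ e ⊆ Wᶜ ∧ opp T e ⊆ W ∧ opp T e ∉ E T
  Bsurj : ∀ e ∈ E T, e ⊆ Wᶜ → opp T e ⊆ W → opp T e ∉ E T → ∃ e' ∈ B, opp T e' = opp T e
  Binj : ∀ e ∈ B, ∀ e' ∈ B, opp T e = opp T e' → e = e'
  deg2 : ∀ a ∈ W, ∃ b ∈ W, ∃ c ∈ W, b ≠ c ∧ D T a b ∧ D T a c

variable {W : Finset V} {B : Finset (Finset V)}

lemma card_Q (h : Surf T) {a x : V} (he : ({a, x} : Finset V) ∈ E T) :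
    (univ.filter (fun y => Q T a x y)).card = 2 := by
  rw [← card_opp h he]
  congr 1
  ext y
  rw [mem_opp_pair h]; simp

/-- closedness of a set of non-W vertices -/
structure Closed (T : Finset (Finset V)) (W : Finset V) (B : Finset (Finset V)) (C : Finset V) : Prop where
  ne : C.Nonempty
  sub : ∀ x ∈ C, x ∉ W
  cl : ∀ x ∈ C, ∀ y, y ∉ W → (∃ z, Q T x y z) → ({x, y} : Finset V) ∉ B → y ∈ C

variable {C : Finset V}

def incS (T : Finset (Finset V)) (W : Finset V) (B : Finset (Finset V)) (C : Finset V) (a : V) :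
    Finset (V × V) :=
  univ.filter (fun p => p.1 ∈ C ∧ Q T a p.1 p.2 ∧ (p.2 ∈ W ∨ ({p.1, p.2} : Finset V) ∈ B))

lemma mem_incS {a : V} {p : V × V} : p ∈ incS T W B C a ↔
    p.1 ∈ C ∧ Q T a p.1 p.2 ∧ (p.2 ∈ W ∨ ({p.1, p.2} : Finset V) ∈ B) := by
  simp [incS]

lemma card_filter_prod {α β : Type*} [Fintype α] [Fintype β] (P : α × β → Prop) [DecidablePred P] :
    (univ.filter P).card = ∑ a, (univ.filter (fun b => P (a, b))).card := by
  simp only [Finset.card_filter]
  exact Fintype.sum_prod_type _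

lemma even_symm_card {S : Finset (V × V)} (hs : ∀ p ∈ S, (p.2, p.1) ∈ S) (hi : ∀ p ∈ S, p.1 ≠ p.2) :
    Even S.card := by
  classical
  let G : SimpleGraph V := 
    { Adj := fun x y => (x, y) ∈ S
      symm := ⟨fun x y hxy => hs _ hxy⟩
      loopless := ⟨fun x hx => hi _ hx rfl⟩ }
  have h1 : S.card = ∑ v, G.degree v := by
    have h0 : S.card = (univ.filter (fun p : V × V => p ∈ S)).card := by
      congr 1; ext p; simp
    rw [h0, card_filter_prod]
    apply Finset.sum_congr rfl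
    intro v _
    rw [← SimpleGraph.card_neighborFinset_eq_degree]
    congr 1
    ext w
    simp [G]
  rw [h1, G.sum_degrees_eq_twice_card_edges]
  exact even_two_mul _

lemma inc_even (hc : Ctx T W B) (hC : Closed T W B C) (a : V) : Even (incS T W B C a).card := by
  classical
  have h := hc.surf
  set S1 : Finset (V × V) := univ.filter (fun p => p.1 ∈ C ∧ Q T a p.1 p.2) with hS1
  set S2 : Finset (V × V) := univ.filter (fun p => p.1 ∈ C ∧ p.2 ∈ C ∧ Q T a p.1 p.2 ∧ ({p.1, p.2} : Finset V) ∉ B) with hS2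
  have e1 : Even S1.card := by
    rw [hS1, card_filter_prod]
    apply Finset.even_sum
    intro v hv
    by_cases hvC : v ∈ C
    · by_cases hE : ({a, v} : Finset V) ∈ E T
      · have : (univ.filter (fun y => v ∈ C ∧ Q T a v y)).card = 2 := by
          rw [← card_Q h hE]
          congr 1
          ext y; simp [hvC]
        simp only [this]; exact even_two
      · rw [Finset.filter_eq_empty_iff.mpr]
        · simp
        · intro y _ hy
          exact hE ((pair_mem_E h).mpr ⟨y, hy.2⟩)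
    · simp [hvC]
  have e2 : Even S2.card := by
    apply even_symm_card
    · rintro ⟨x, y⟩ hp
      simp only [hS2, Finset.mem_filter, Finset.mem_univ, true_and] at hp ⊢
      refine ⟨hp.2.1, hp.1, Q_swap23.mp hp.2.2.1, ?_⟩
      rw [Finset.pair_comm]; exact hp.2.2.2
    · rintro ⟨x, y⟩ hp
      simp only [hS2, Finset.mem_filter, Finset.mem_univ, true_and] at hp
      exact (Q_ne h hp.2.2.1).2.2
  have hsplit : S1 = incS T W B C a ∪ S2 := by
    ext ⟨x, y⟩
    simp only [hS1, hS2, Finset.mem_union, mem_incS, Finset.mem_filter, Finset.mem_univ, true_and]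
    constructor
    · rintro ⟨hx, hq⟩
      by_cases hy : y ∈ W
      · exact Or.inl ⟨hx, hq, Or.inl hy⟩
      · by_cases hB : ({x, y} : Finset V) ∈ B
        · exact Or.inl ⟨hx, hq, Or.inr hB⟩
        · exact Or.inr ⟨hx, hC.cl x hx y hy ⟨a, Q_rot.mp hq⟩ hB, hq, hB⟩
    · rintro (⟨hx, hq, _⟩ | ⟨hx, _, hq, _⟩) <;> exact ⟨hx, hq⟩
  have hdisj : Disjoint (incS T W B C a) S2 := by
    rw [Finset.disjoint_left]
    rintro ⟨x, y⟩ h1 h2
    simp only [hS2, mem_incS, Finset.mem_filter, Finset.mem_univ, true_and] at h1 h2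
    rcases h1.2.2 with h3 | h3
    · exact hC.sub y h2.2.1 h3
    · exact h2.2.2.2 h3
  rw [hsplit, Finset.card_union_of_disjoint hdisj] at e1
  exact (Nat.even_add.mp e1).mpr e2

/-- W-vertices adjacent to C -/
def A (T : Finset (Finset V)) (W : Finset V) (C : Finset V) : Finset V :=
  W.filter (fun a => ∃ x ∈ C, ∃ y, Q T a x y)

lemma mem_A {a : V} : a ∈ A T W C ↔ a ∈ W ∧ ∃ x ∈ C, ∃ y, Q T a x y := by
  simp [A]

lemma opp_pair_eq (h : Surf T) {x y a b : V} (hab : a ≠ b) (ha : Q T x y a) (hb : Q T x y b) :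
    opp T {x, y} = {a, b} := by
  symm
  apply Finset.eq_of_subset_of_card_le
  · intro z hz
    rw [mem_opp_pair h]
    simp only [Finset.mem_insert, Finset.mem_singleton] at hz
    rcases hz with rfl | rfl <;> assumption
  · rw [card_opp h ((pair_mem_E h).mpr ⟨a, ha⟩), Finset.card_pair hab]

lemma inc_ne_zero (hc : Ctx T W B) (hC : Closed T W B C) {a : V} (ha : a ∈ A T W C) :
    (incS T W B C a).card ≠ 0 := by
  intro h0
  have h := hc.surf
  rw [Finset.card_eq_zero, Finset.eq_empty_iff_forall_notMem] at h0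
  rw [mem_A] at ha
  obtain ⟨haW, x₀, hx₀, y₀, hq₀⟩ := ha
  have hcl : ∀ z y, Q T a z y → z ∈ (C : Set V) := by
    apply link_closed h a (C : Set V) x₀ y₀ hx₀ hq₀
    intro x hx y hq
    have hn : (x, y) ∉ incS T W B C a := h0 (x, y)
    rw [mem_incS] at hn
    push Not at hn
    have := hn hx hq
    exact hC.cl x hx y this.1 ⟨a, Q_rot.mp hq⟩ this.2
  obtain ⟨b, hbW, c, hcW, hbc, hDb, hDc⟩ := hc.deg2 a haW
  obtain ⟨hne, ⟨z, hz⟩ | ⟨x, y, h1, h2⟩⟩ := hDb
  · exact hC.sub b (hcl b z hz) hbW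
  · have h1' : Q T a x y := Q_rot.mpr h1
    have hx : x ∈ C := hcl x y h1'
    have hy : y ∈ C := hcl y x (Q_swap23.mp h1')
    have hopp : opp T {x, y} = {a, b} := opp_pair_eq h hne h1 h2
    have hnE : ({a, b} : Finset V) ∉ E T := by
      intro hE
      obtain ⟨z, hz⟩ := (pair_mem_E h).mp hE
      exact hC.sub b (hcl b z hz) hbW
    obtain ⟨e', he', hoe'⟩ := hc.Bsurj {x, y} ((pair_mem_E h).mpr ⟨a, h1⟩) (by
        intro w hw
        simp only [Finset.mem_insert, Finset.mem_singleton] at hw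
        rw [Finset.mem_compl]
        rcases hw with rfl | rfl
        · exact hC.sub _ hx
        · exact hC.sub _ hy) (by
        rw [hopp]
        intro w hw
        simp only [Finset.mem_insert, Finset.mem_singleton] at hw
        rcases hw with rfl | rfl <;> assumption) (by rw [hopp]; exact hnE)
    have he'2 := hc.Bsub e' he'
    obtain ⟨x', y', hxy', rfl⟩ := Finset.card_eq_two.mp (mem_E.mp he'2.1).1
    have ha' : a ∈ opp T {x', y'} := by rw [hoe', hopp]; simp
    rw [mem_opp_pair h] at ha'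
    have ha'' : Q T a x' y' := Q_rot.mpr ha'
    have hx' : x' ∈ C := hcl x' y' ha''
    apply h0 (x', y')
    rw [mem_incS]
    exact ⟨hx', ha'', Or.inr he'⟩

lemma inc_ge_two (hc : Ctx T W B) (hC : Closed T W B C) {a : V} (ha : a ∈ A T W C) :
    2 ≤ (incS T W B C a).card := by
  have h1 := inc_ne_zero hc hC ha
  have h2 := inc_even hc hC a
  obtain ⟨r, hr⟩ := h2
  omega

def J (T : Finset (Finset V)) (W : Finset V) (B : Finset (Finset V)) (C : Finset V) : Finset (V × V × V) :=
  univ.filter (fun p => p.1 ∈ W ∧ p.2 ∈ incS T W B C p.1)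

lemma mem_J {a x y : V} : (a, x, y) ∈ J T W B C ↔ a ∈ W ∧ (x, y) ∈ incS T W B C a := by
  simp [J]

lemma J_card (T : Finset (Finset V)) (W : Finset V) (B : Finset (Finset V)) (C : Finset V) :
    (J T W B C).card = ∑ a ∈ W, (incS T W B C a).card := by
  unfold J
  rw [card_filter_prod]
  rw [← Finset.sum_filter_add_sum_filter_not univ (fun a => a ∈ W)]
  have h2 : ∑ x with x ∉ W, (univ.filter (fun b : V × V => (x, b).1 ∈ W ∧ (x, b).2 ∈ incS T W B C (x, b).1)).card = 0 := by
    apply Finset.sum_eq_zero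
    intro x hx
    simp only [Finset.mem_filter, Finset.mem_univ, true_and] at hx
    simp [hx]
  rw [h2, add_zero]
  apply Finset.sum_congr
  · ext; simp
  · intro a ha
    congr 1
    ext p
    have : a ∈ W := by simpa using ha
    simp [this]

lemma incS_eq_empty_of_not_A {a : V} (haW : a ∈ W) (ha : a ∉ A T W C) : incS T W B C a = ∅ := by
  rw [Finset.eq_empty_iff_forall_notMem]
  rintro ⟨x, y⟩ hxy
  rw [mem_incS] at hxy
  exact ha (mem_A.mpr ⟨haW, x, hxy.1, y, hxy.2.1⟩)

lemma J_card' (T : Finset (Finset V)) (W : Finset V) (B : Finset (Finset V)) (C : Finset V) :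
    (J T W B C).card = ∑ a ∈ A T W C, (incS T W B C a).card := by
  rw [J_card]
  symm
  apply Finset.sum_subset
  · intro a ha; exact (mem_A.mp ha).1
  · intro a haW ha
    rw [incS_eq_empty_of_not_A haW ha]; simp

lemma J_even (hc : Ctx T W B) (hC : Closed T W B C) : Even (J T W B C).card := by
  rw [J_card]
  apply Finset.even_sum
  intro a _
  exact inc_even hc hC a

lemma J_ge (hc : Ctx T W B) (hC : Closed T W B C) : 2 * (A T W C).card ≤ (J T W B C).card := by
  rw [J_card', mul_comm, ← smul_eq_mul]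
  apply Finset.card_nsmul_le_sum
  intro a ha
  exact inc_ge_two hc hC ha

end H41
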