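import Pool.Agent.H41.LemB

set_option autoImplicit false
set_option linter.unusedSectionVars false

namespace H41

open Finset

variable {V : Type*} [Fintype V] [DecidableEq V] {T : Finset (Finset V)}
variable {W : Finset V} {B : Finset (Finset V)} {C : Finset V}

lemma A_nonempty (hc : Ctx T W B) (hC : Closed T W B C) (hW : W.Nonempty) : (A T W C).Nonempty := by
  have h := hc.surf
  by_contra hA
  rw [Finset.not_nonempty_iff_eq_empty] at hA
  -- C is closed under G-adjacency
  have hcl : ∀ x ∈ C, ∀ y, (∃ z, Q T x y z) → y ∈ C := by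
    intro x hx y ⟨z, hz⟩
    have hxE : ({x, y} : Finset V) ∈ E T := (pair_mem_E h).mpr ⟨z, hz⟩
    have hyW : y ∉ W := by
      intro hy
      have : y ∈ A T W C := mem_A.mpr ⟨hy, x, hx, z, Q_swap12.mp hz⟩
      rw [hA] at this; simp at this
    apply hC.cl x hx y hyW ⟨z, hz⟩
    intro hB
    have hs := (hc.Bsub _ hB).2.2.1
    have hz' : z ∈ opp T {x, y} := (mem_opp_pair h).mpr hz
    have hzW := hs hz'
    have : z ∈ A T W C := mem_A.mpr ⟨hzW, x, hx, y, Q_rot.mpr hz⟩
    rw [hA] at this; simp at this
  obtain ⟨x₀, hx₀⟩ := hC.ne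
  obtain ⟨w, hw⟩ := hW
  have : w ∈ C := by
    obtain ⟨p⟩ := h.conn x₀ w
    clear hw
    induction p with
    | nil => exact hx₀
    | @cons u v w hadj p ih =>
      apply ih
      rw [SimpleGraph.fromRel_adj] at hadj
      obtain ⟨hne, hr⟩ := hadj
      have hr' : ∃ t ∈ T, u ∈ t ∧ v ∈ t := by
        rcases hr with hr | hr
        · exact hr
        · obtain ⟨t, ht, h1, h2⟩ := hr
          exact ⟨t, ht, h2, h1⟩
      obtain ⟨t, ht, h1, h2⟩ := hr'
      apply hcl _ hx₀
      rw [← pair_mem_E h, mem_E]
      refine ⟨Finset.card_pair hne, t, ht, ?_⟩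
      intro w hw
      simp only [Finset.mem_insert, Finset.mem_singleton] at hw
      rcases hw with rfl | rfl <;> assumption
  exact hC.sub w this hw

/-- an incidence gives two distinct elements of A -/
lemma inc_gives (hc : Ctx T W B) (hC : Closed T W B C) {a x y : V} (haW : a ∈ W)
    (hxy : (x, y) ∈ incS T W B C a) :
    (y ∈ W ∧ y ∈ A T W C ∧ y ≠ a ∧ Q T a x y ∧ ({a, y} : Finset V) ∈ E T) ∨
    (y ∉ W ∧ ({x, y} : Finset V) ∈ B ∧ ∃ b, b ∈ A T W C ∧ b ≠ a ∧ Q T x y a ∧ Q T x y b ∧ opp T {x, y} = {a, b}
      ∧ ({a, b} : Finset V) ∉ E T) := by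
  have h := hc.surf
  rw [mem_incS] at hxy
  obtain ⟨hx, hq, hy⟩ := hxy
  by_cases hyW : y ∈ W
  · left
    refine ⟨hyW, mem_A.mpr ⟨hyW, x, hx, a, Q_rot.mp (Q_swap23.mp hq)⟩, (Q_ne h hq).2.1.symm, hq, (pair_mem_E h).mpr ⟨x, Q_swap23.mp hq⟩⟩
  · right
    have hB : ({x, y} : Finset V) ∈ B := by tauto
    have hb := hc.Bsub _ hB
    have hoa : Q T x y a := Q_rot.mp hq
    have hao : a ∈ opp T {x, y} := (mem_opp_pair h).mpr hoa
    have hcard := card_opp h hb.1
    have hcard2 : ((opp T {x, y}).erase a).card = 1 := by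
      rw [Finset.card_erase_of_mem hao]; omega
    obtain ⟨b, hb'⟩ := Finset.card_eq_one.mp hcard2
    have hbm : b ∈ (opp T {x, y}).erase a := by rw [hb']; simp
    rw [Finset.mem_erase] at hbm
    have hbo : Q T x y b := (mem_opp_pair h).mp hbm.2
    have hopp : opp T {x, y} = {a, b} := by rw [← hb', Finset.insert_erase hao]
    refine ⟨hyW, hB, b, mem_A.mpr ⟨hb.2.2.1 hbm.2, x, hx, y, Q_rot.mpr hbo⟩, hbm.1, hoa, hbo, hopp, ?_⟩
    rw [← hopp]; exact hb.2.2.2

lemma J_ge_six (hc : Ctx T W B) (hC : Closed T W B C) (hW : W.Nonempty) : 6 ≤ (J T W B C).card := by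
  have h := hc.surf
  by_contra hlt
  push Not at hlt
  obtain ⟨r, hr⟩ := J_even hc hC
  have hA2 : (A T W C).card ≤ 2 := by
    have := J_ge hc hC; omega
  obtain ⟨a, ha⟩ := A_nonempty hc hC hW
  have haW := (mem_A.mp ha).1
  -- find b
  have hinc := inc_ge_two hc hC ha
  obtain ⟨⟨x₁, y₁⟩, hxy₁⟩ := Finset.card_pos.mp (by omega : 0 < (incS T W B C a).card)
  -- b with A = {a,b}
  have hb : ∃ b, b ∈ A T W C ∧ b ≠ a := by
    rcases inc_gives hc hC haW hxy₁ with h1 | ⟨_, _, b, hb, hba, _⟩
    · exact ⟨y₁, h1.2.1, h1.2.2.1⟩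
    · exact ⟨b, hb, hba⟩
  obtain ⟨b, hbA, hba⟩ := hb
  have hAeq : A T W C = {a, b} := by
    symm
    apply Finset.eq_of_subset_of_card_le
    · intro z hz
      simp only [Finset.mem_insert, Finset.mem_singleton] at hz
      rcases hz with rfl | rfl <;> assumption
    · rw [Finset.card_pair hba.symm]; exact hA2
  have hbW := (mem_A.mp hbA).1
  have hsum : (incS T W B C a).card + (incS T W B C b).card ≤ 4 := by
    have := J_card' T W B C
    rw [hAeq, Finset.sum_pair hba.symm] at this
    omega
  have hincb := inc_ge_two hc hC hbA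
  have hinca2 : (incS T W B C a).card = 2 := by omega
  obtain ⟨p, q, hpq, hpqe⟩ := Finset.card_eq_two.mp hinca2
  -- key: every link vertex of a is in C or equal b
  have key : ∀ z y, Q T a z y → z ∈ (C : Set V) ∪ {b} := by
    by_cases hab : ({a, b} : Finset V) ∈ E T
    · -- W-type incidences
      have htype : ∀ x y, (x, y) ∈ incS T W B C a → y = b ∧ Q T a x b := by
        intro x y hxy
        rcases inc_gives hc hC haW hxy with h1 | ⟨_, _, b', hb', hba', _, _, _, hnE⟩
        · have : y ∈ A T W C := h1.2.1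
          rw [hAeq] at this
          simp only [Finset.mem_insert, Finset.mem_singleton] at this
          rcases this with h2 | h2
          · exact absurd h2 h1.2.2.1
          · subst h2; exact ⟨rfl, h1.2.2.2.1⟩
        · rw [hAeq] at hb'
          simp only [Finset.mem_insert, Finset.mem_singleton] at hb'
          rcases hb' with h2 | h2
          · exact absurd h2 hba'
          · subst h2; exact absurd hab hnE
      obtain ⟨p1, p2⟩ := p
      obtain ⟨q1, q2⟩ := q
      have hp : (p1, p2) ∈ incS T W B C a := by rw [hpqe]; simp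
      have hq : (q1, q2) ∈ incS T W B C a := by rw [hpqe]; simp
      have hp' := htype p1 p2 hp
      have hq' := htype q1 q2 hq
      have hpC : p1 ∈ C := (mem_incS.mp hp).1
      have hqC : q1 ∈ C := (mem_incS.mp hq).1
      have hp1q1 : p1 ≠ q1 := by
        intro he; apply hpq; rw [Prod.mk.injEq]; exact ⟨he, hp'.1.trans hq'.1.symm⟩
      -- neighbours of b in link of a are p1 q1
      have hnb : ∀ y, Q T a b y → y = p1 ∨ y = q1 := by
        intro y hy
        have ho : opp T {a, b} = {p1, q1} := opp_pair_eq h hp1q1 (Q_swap23.mp hp'.2) (Q_swap23.mp hq'.2)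
        have : y ∈ opp T {a, b} := (mem_opp_pair h).mpr hy
        rw [ho] at this
        simpa using this
      apply link_closed h a ((C : Set V) ∪ {b}) p1 b (Or.inl hpC) hp'.2
      rintro x (hx | hx) y hq0
      · by_cases hy : y ∈ W
        · have : (x, y) ∈ incS T W B C a := mem_incS.mpr ⟨hx, hq0, Or.inl hy⟩
          exact Or.inr (htype x y this).1
        · by_cases hB : ({x, y} : Finset V) ∈ B
          · have : (x, y) ∈ incS T W B C a := mem_incS.mpr ⟨hx, hq0, Or.inr hB⟩
            exact Or.inr (htype x y this).1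
          · exact Or.inl (hC.cl x hx y hy ⟨a, Q_rot.mp hq0⟩ hB)
      · simp only [Set.mem_singleton_iff] at hx
        subst hx
        rcases hnb y hq0 with rfl | rfl
        · exact Or.inl hpC
        · exact Or.inl hqC
    · -- B-type incidences
      have htype : ∀ x y, (x, y) ∈ incS T W B C a → ({x, y} : Finset V) ∈ B ∧ opp T {x, y} = {a, b} := by
        intro x y hxy
        rcases inc_gives hc hC haW hxy with h1 | ⟨_, hB, b', hb', hba', _, _, ho, hnE⟩
        · have : y ∈ A T W C := h1.2.1
          rw [hAeq] at this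
          simp only [Finset.mem_insert, Finset.mem_singleton] at this
          rcases this with h2 | h2
          · exact absurd h2 h1.2.2.1
          · subst h2; exact absurd h1.2.2.2.2 hab
        · rw [hAeq] at hb'
          simp only [Finset.mem_insert, Finset.mem_singleton] at hb'
          rcases hb' with h2 | h2
          · exact absurd h2 hba'
          · subst h2; exact ⟨hB, ho⟩
      obtain ⟨p1, p2⟩ := p
      obtain ⟨q1, q2⟩ := q
      have hp : (p1, p2) ∈ incS T W B C a := by rw [hpqe]; simp
      have hq : (q1, q2) ∈ incS T W B C a := by rw [hpqe]; simp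
      have hp' := htype p1 p2 hp
      have hq' := htype q1 q2 hq
      have hpC : p1 ∈ C := (mem_incS.mp hp).1
      have hqC : q1 ∈ C := (mem_incS.mp hq).1
      have heq : ({p1, p2} : Finset V) = {q1, q2} := hc.Binj _ hp'.1 _ hq'.1 (hp'.2.trans hq'.2.symm)
      have hqq : q1 = p2 := by
        have : q1 ∈ ({p1, p2} : Finset V) := by rw [heq]; simp
        simp only [Finset.mem_insert, Finset.mem_singleton] at this
        rcases this with h2 | h2
        · exfalso
          subst h2
          apply hpq
          have h3 : p2 ∈ ({q1, q2} : Finset V) := by rw [← heq]; simp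
          simp only [Finset.mem_insert, Finset.mem_singleton] at h3
          have hne := (Q_ne h (mem_incS.mp hp).2.1).2.2
          rcases h3 with h4 | h4
          · exact absurd h4.symm hne
          · rw [h4]
        · exact h2
      have hp2C : p2 ∈ C := hqq ▸ hqC
      have hall : ∀ x y, (x, y) ∈ incS T W B C a → y ∈ C := by
        intro x y hxy
        have h2 := htype x y hxy
        have h3 := hc.Binj _ h2.1 _ hp'.1 (h2.2.trans hp'.2.symm)
        have h4 : y ∈ ({p1, p2} : Finset V) := by rw [← h3]; simp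
        simp only [Finset.mem_insert, Finset.mem_singleton] at h4
        rcases h4 with rfl | rfl <;> assumption
      have hcl : ∀ z y, Q T a z y → z ∈ (C : Set V) := by
        apply link_closed h a (C : Set V) p1 p2 hpC (mem_incS.mp hp).2.1
        intro x hx y hq0
        by_cases hy : y ∈ W
        · have : (x, y) ∈ incS T W B C a := mem_incS.mpr ⟨hx, hq0, Or.inl hy⟩
          exact hall x y this
        · by_cases hB : ({x, y} : Finset V) ∈ B
          · have : (x, y) ∈ incS T W B C a := mem_incS.mpr ⟨hx, hq0, Or.inr hB⟩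
            exact hall x y this
          · exact hC.cl x hx y hy ⟨a, Q_rot.mp hq0⟩ hB
      intro z y hzy
      exact Or.inl (hcl z y hzy)
  -- conclusion : every D-neighbour of a in W is b
  have hfin : ∀ z ∈ W, D T a z → z = b := by
    rintro z hzW ⟨hne, ⟨w, hw⟩ | ⟨x, y, h1, h2⟩⟩
    · rcases key z w hw with h3 | h3
      · exact absurd hzW (hC.sub z h3)
      · exact h3
    · have hx := key x y (Q_rot.mpr h1)
      have hy := key y x (Q_swap23.mp (Q_rot.mpr h1))
      have hxy := (Q_ne h h1).1
      have hzA : z ∈ A T W C := by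
        rcases hx with hx | hx
        · exact mem_A.mpr ⟨hzW, x, hx, y, Q_rot.mpr h2⟩
        · rcases hy with hy | hy
          · exact mem_A.mpr ⟨hzW, y, hy, x, Q_swap23.mp (Q_rot.mpr h2)⟩
          · simp only [Set.mem_singleton_iff] at hx hy
            exact absurd (hx.trans hy.symm) hxy
      rw [hAeq] at hzA
      simp only [Finset.mem_insert, Finset.mem_singleton] at hzA
      rcases hzA with h3 | h3
      · exact absurd h3.symm hne
      · exact h3
  obtain ⟨b', hb'W, c', hc'W, hbc, hD1, hD2⟩ := hc.deg2 a haW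
  exact hbc ((hfin b' hb'W hD1).trans (hfin c' hc'W hD2).symm)

end H41
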