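import Pool.Agent.H41.LemB2

set_option autoImplicit false
set_option linter.unusedSectionVars false
set_option linter.unusedVariables false

namespace H41

open Finset

variable {V : Type*} [Fintype V] [DecidableEq V] {T : Finset (Finset V)}
variable {W : Finset V} {B : Finset (Finset V)} {C : Finset V}

/-- new pairs seen around C -/
def K (T : Finset (Finset V)) (W : Finset V) (C : Finset V) : Finset (Finset V) :=
  (powersetCard 2 W).filter (fun p => p ∉ E T ∧ ∃ w ∈ W, ∃ u ∈ C, ({w, u} : Finset V) ∈ E T ∧ opp T {w, u} = p)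

def P2w (T : Finset (Finset V)) (W : Finset V) (C : Finset V) (w : V) : Finset V :=
  C.filter (fun u => ({w, u} : Finset V) ∈ E T ∧ opp T {w, u} ⊆ W)

lemma mem_K {p : Finset V} : p ∈ K T W C ↔ (p ⊆ W ∧ p.card = 2) ∧ p ∉ E T ∧
    ∃ w ∈ W, ∃ u ∈ C, ({w, u} : Finset V) ∈ E T ∧ opp T {w, u} = p := by
  simp [K, Finset.mem_powersetCard]

lemma P2w_le (hc : Ctx T W B) (w : V) : 2 * (P2w T W C w).card ≤ (incS T W B C w).card := by
  have h := hc.surf
  have h1 : ((P2w T W C w).sigma (fun u => opp T {w, u})).card = 2 * (P2w T W C w).card := by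
    rw [Finset.card_sigma]
    have : ∀ u ∈ P2w T W C w, (opp T {w, u}).card = 2 := by
      intro u hu
      simp only [P2w, Finset.mem_filter] at hu
      exact card_opp h hu.2.1
    rw [Finset.sum_congr rfl this, Finset.sum_const, smul_eq_mul, mul_comm]
  rw [← h1]
  apply Finset.card_le_card_of_injOn (fun s => (s.1, s.2))
  · rintro ⟨u, y⟩ hs
    simp only [Finset.coe_sigma, Set.mem_sigma_iff, Finset.mem_coe, P2w, Finset.mem_filter] at hs
    simp only [Finset.mem_coe, mem_incS]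
    exact ⟨hs.1.1, (mem_opp_pair h).mp hs.2, Or.inl (hs.1.2.2 hs.2)⟩
  · rintro ⟨u, y⟩ _ ⟨u', y'⟩ _ heq
    simp only [Prod.mk.injEq] at heq
    obtain ⟨rfl, rfl⟩ := heq
    rfl

lemma P2w_empty {w : V} (h : Surf T) (hw : w ∈ W) (hA : w ∉ A T W C) : P2w T W C w = ∅ := by
  rw [Finset.eq_empty_iff_forall_notMem]
  intro u hu
  simp only [P2w, Finset.mem_filter] at hu
  obtain ⟨z, hz⟩ := (pair_mem_E h).mp hu.2.1
  exact hA (mem_A.mpr ⟨hw, u, hu.1, z, hz⟩)

lemma K_le (hc : Ctx T W B) : (K T W C).card ≤ ∑ w ∈ A T W C, (P2w T W C w).card := by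
  have h := hc.surf
  have : K T W C ⊆ (A T W C).biUnion (fun w => (P2w T W C w).image (fun u => opp T {w, u})) := by
    intro p hp
    rw [mem_K] at hp
    obtain ⟨⟨hpW, hp2⟩, hpE, w, hw, u, hu, hE, ho⟩ := hp
    rw [Finset.mem_biUnion]
    obtain ⟨z, hz⟩ := (pair_mem_E h).mp hE
    refine ⟨w, mem_A.mpr ⟨hw, u, hu, z, hz⟩, ?_⟩
    rw [Finset.mem_image]
    refine ⟨u, ?_, ho⟩
    simp only [P2w, Finset.mem_filter]
    exact ⟨hu, hE, ho ▸ hpW⟩
  calc (K T W C).card ≤ _ := Finset.card_le_card this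
    _ ≤ ∑ w ∈ A T W C, ((P2w T W C w).image (fun u => opp T {w, u})).card := Finset.card_biUnion_le
    _ ≤ _ := Finset.sum_le_sum (fun w _ => Finset.card_image_le)

lemma K_half (hc : Ctx T W B) : 2 * (K T W C).card ≤ (J T W B C).card := by
  have h1 := K_le (C := C) hc
  rw [J_card']
  calc 2 * (K T W C).card ≤ 2 * ∑ w ∈ A T W C, (P2w T W C w).card := by omega
    _ = ∑ w ∈ A T W C, 2 * (P2w T W C w).card := by rw [Finset.mul_sum]
    _ ≤ _ := Finset.sum_le_sum (fun w _ => P2w_le hc w)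

/-- neighbours of w in A -/
lemma nbrs (hc : Ctx T W B) {w u : V} (hw : w ∈ W) (hu : u ∈ C) (hE : ({w, u} : Finset V) ∈ E T)
    (ho : opp T {w, u} ⊆ W) : ∃ a b, a ≠ b ∧ a ∈ A T W C ∧ b ∈ A T W C ∧ a ≠ w ∧ b ≠ w ∧
      ({w, a} : Finset V) ∈ E T ∧ ({w, b} : Finset V) ∈ E T ∧ opp T {w, u} = {a, b} ∧ w ∈ A T W C := by
  have h := hc.surf
  obtain ⟨a, b, hab, hopp⟩ := Finset.card_eq_two.mp (card_opp h hE)
  have ha : a ∈ opp T {w, u} := by rw [hopp]; simp
  have hb : b ∈ opp T {w, u} := by rw [hopp]; simp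
  have hqa := (mem_opp_pair h).mp ha
  have hqb := (mem_opp_pair h).mp hb
  refine ⟨a, b, hab, mem_A.mpr ⟨ho ha, u, hu, w, ?_⟩, mem_A.mpr ⟨ho hb, u, hu, w, ?_⟩, (Q_ne h hqa).2.1.symm,
    (Q_ne h hqb).2.1.symm, (pair_mem_E h).mpr ⟨u, Q_swap23.mp hqa⟩, (pair_mem_E h).mpr ⟨u, Q_swap23.mp hqb⟩, hopp,
    mem_A.mpr ⟨hw, u, hu, a, hqa⟩⟩
  · exact Q_rot.mp (Q_swap23.mp (Q_rot.mp (Q_rot.mp (Q_rot.mp hqa)))) |> fun h' => by
      first | exact h' | exact Q_rot.mp h' | exact Q_rot.mpr h' | exact Q_swap12.mp h' | exact Q_swap23.mp h'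
  · exact Q_rot.mp (Q_swap23.mp (Q_rot.mp (Q_rot.mp (Q_rot.mp hqb)))) |> fun h' => by
      first | exact h' | exact Q_rot.mp h' | exact Q_rot.mpr h' | exact Q_swap12.mp h' | exact Q_swap23.mp h'

lemma K_sub_A (hc : Ctx T W B) {p : Finset V} (hp : p ∈ K T W C) : p ⊆ A T W C := by
  rw [mem_K] at hp
  obtain ⟨⟨hpW, hp2⟩, hpE, w, hw, u, hu, hE, ho⟩ := hp
  obtain ⟨a, b, hab, ha, hb, _, _, _, _, hopp, _⟩ := nbrs hc hw hu hE (ho ▸ hpW)
  rw [← ho, hopp]
  intro z hz
  simp only [Finset.mem_insert, Finset.mem_singleton] at hz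
  rcases hz with rfl | rfl <;> assumption

lemma K_le_one (hc : Ctx T W B) (hA : (A T W C).card ≤ 3) : (K T W C).card ≤ 1 := by
  rw [Finset.card_le_one]
  intro p hp p' hp'
  have hpA := K_sub_A hc hp
  have hpA' := K_sub_A hc hp'
  have hp'' := hp'
  rw [mem_K] at hp hp'
  obtain ⟨⟨hpW, hp2⟩, hpE, w, hw, u, hu, hE, ho⟩ := hp
  obtain ⟨a, b, hab, ha, hb, haw, hbw, hwa, hwb, hopp, hwA⟩ := nbrs hc hw hu hE (ho ▸ hpW)
  have hAeq : A T W C = {w, a, b} := by
    symm
    apply Finset.eq_of_subset_of_card_le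
    · intro z hz
      simp only [Finset.mem_insert, Finset.mem_singleton] at hz
      rcases hz with rfl | rfl | rfl <;> assumption
    · have : ({w, a, b} : Finset V).card = 3 := by
        rw [Finset.card_eq_three]
        exact ⟨w, a, b, haw.symm, hbw.symm, hab, rfl⟩
      omega
  rw [hAeq] at hpA'
  obtain ⟨c, d, hcd, rfl⟩ := Finset.card_eq_two.mp hp'.1.2
  have hc' : c ∈ ({w, a, b} : Finset V) := hpA' (by simp)
  have hd' : d ∈ ({w, a, b} : Finset V) := hpA' (by simp)
  rw [← ho, hopp]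
  have hnE := hp'.2.1
  simp only [Finset.mem_insert, Finset.mem_singleton] at hc' hd'
  rcases hc' with rfl | rfl | rfl <;> rcases hd' with rfl | rfl | rfl
  · exact absurd rfl hcd
  · exact absurd hwa hnE
  · exact absurd hwb hnE
  · rw [Finset.pair_comm] at hnE; exact absurd hwa hnE
  · exact absurd rfl hcd
  · rfl
  · rw [Finset.pair_comm] at hnE; exact absurd hwb hnE
  · exact Finset.pair_comm _ _
  · exact absurd rfl hcd

lemma K_le_three (hc : Ctx T W B) (hC : Closed T W B C) (hJ : (J T W B C).card ≤ 8) :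
    (K T W C).card ≤ 3 := by
  have h := hc.surf
  by_contra hlt
  push Not at hlt
  have hA4 : (A T W C).card ≤ 4 := by
    have := J_ge hc hC; omega
  have hA4' : (A T W C).card = 4 := by
    by_contra hne
    have := K_le_one (C := C) hc (by omega)
    omega
  have hinc : ∀ w ∈ A T W C, (incS T W B C w).card = 2 := by
    intro w hw
    by_contra hne
    have h2 := inc_ge_two hc hC hw
    have : ∑ a ∈ A T W C, 2 < ∑ a ∈ A T W C, (incS T W B C a).card := by
      apply Finset.sum_lt_sum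
      · intro i hi; exact inc_ge_two hc hC hi
      · exact ⟨w, hw, by omega⟩
    rw [← J_card', Finset.sum_const, hA4'] at this
    simp at this
    omega
  have hP1 : ∀ w ∈ A T W C, (P2w T W C w).card ≤ 1 := by
    intro w hw
    have := P2w_le (C := C) hc w
    rw [hinc w hw] at this
    omega
  have hP1' : ∀ w ∈ A T W C, (P2w T W C w).card = 1 := by
    intro w hw
    by_contra hne
    have h2 := hP1 w hw
    have : ∑ a ∈ A T W C, (P2w T W C a).card < ∑ a ∈ A T W C, 1 := by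
      apply Finset.sum_lt_sum
      · intro i hi; exact hP1 i hi
      · exact ⟨w, hw, by omega⟩
    rw [Finset.sum_const, hA4'] at this
    simp at this
    have := K_le (C := C) hc
    omega
  have hn : ∀ w ∈ A T W C, ∃ a b, a ≠ b ∧ a ∈ A T W C ∧ b ∈ A T W C ∧ a ≠ w ∧ b ≠ w ∧
      ({w, a} : Finset V) ∈ E T ∧ ({w, b} : Finset V) ∈ E T := by
    intro w hw
    obtain ⟨u, hu⟩ := Finset.card_pos.mp (by rw [hP1' w hw]; norm_num : 0 < (P2w T W C w).card)
    simp only [P2w, Finset.mem_filter] at hu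
    obtain ⟨a, b, h1, h2, h3, h4, h5, h6, h7, _⟩ := nbrs hc (mem_A.mp hw).1 hu.1 hu.2.1 hu.2.2
    exact ⟨a, b, h1, h2, h3, h4, h5, h6, h7⟩
  -- elements of K are pairwise disjoint
  have hdis : ∀ p ∈ K T W C, ∀ p' ∈ K T W C, p ≠ p' → Disjoint p p' := by
    intro p hp p' hp' hne
    rw [Finset.disjoint_left]
    intro w hwp hwp'
    have hpA := K_sub_A hc hp
    have hpA' := K_sub_A hc hp'
    rw [mem_K] at hp hp'
    have e1 : ∃ c, c ≠ w ∧ p = {w, c} := by
      obtain ⟨x, y, hxy, rfl⟩ := Finset.card_eq_two.mp hp.1.2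
      simp only [Finset.mem_insert, Finset.mem_singleton] at hwp
      rcases hwp with rfl | rfl
      · exact ⟨y, hxy.symm, rfl⟩
      · exact ⟨x, hxy, Finset.pair_comm _ _⟩
    have e2 : ∃ c, c ≠ w ∧ p' = {w, c} := by
      obtain ⟨x, y, hxy, rfl⟩ := Finset.card_eq_two.mp hp'.1.2
      simp only [Finset.mem_insert, Finset.mem_singleton] at hwp'
      rcases hwp' with rfl | rfl
      · exact ⟨y, hxy.symm, rfl⟩
      · exact ⟨x, hxy, Finset.pair_comm _ _⟩
    obtain ⟨c, hcw, rfl⟩ := e1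
    obtain ⟨d, hdw, rfl⟩ := e2
    have hcd : c ≠ d := by rintro rfl; exact hne rfl
    have hwA : w ∈ A T W C := hpA hwp
    obtain ⟨a, b, hab, haA, hbA, haw, hbw, hwa, hwb⟩ := hn w hwA
    have hcA : c ∈ A T W C := hpA (by simp)
    have hdA : d ∈ A T W C := hpA' (by simp)
    have hac : a ≠ c := by rintro rfl; exact hp.2.1 hwa
    have had : a ≠ d := by rintro rfl; exact hp'.2.1 hwa
    have hbc : b ≠ c := by rintro rfl; exact hp.2.1 hwb
    have hbd : b ≠ d := by rintro rfl; exact hp'.2.1 hwb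
    have hsub : ({w, a, b, c, d} : Finset V) ⊆ A T W C := by
      intro z hz
      simp only [Finset.mem_insert, Finset.mem_singleton] at hz
      rcases hz with rfl | rfl | rfl | rfl | rfl <;> assumption
    have hcard : ({w, a, b, c, d} : Finset V).card = 5 := by
      rw [Finset.card_insert_of_notMem, Finset.card_insert_of_notMem, Finset.card_insert_of_notMem,
        Finset.card_insert_of_notMem, Finset.card_singleton]
      · simpa using hcd
      · simp; exact ⟨hbc, hbd⟩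
      · simp; exact ⟨hab, hac, had⟩
      · simp; exact ⟨haw.symm, hbw.symm, hcw.symm, hdw.symm⟩
    have := Finset.card_le_card hsub
    omega
  have hun : ((K T W C).biUnion id).card = ∑ p ∈ K T W C, p.card := by
    rw [Finset.card_biUnion]
    · rfl
    · intro x hx y hy hxy
      exact hdis x hx y hy hxy
  have hsub : (K T W C).biUnion id ⊆ A T W C := by
    intro z hz
    rw [Finset.mem_biUnion] at hz
    obtain ⟨p, hp, hz⟩ := hz
    exact K_sub_A hc hp hz
  have h5 := Finset.card_le_card hsub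
  have h6 : ∑ p ∈ K T W C, p.card = ∑ p ∈ K T W C, 2 := by
    apply Finset.sum_congr rfl
    intro p hp
    exact (mem_K.mp hp).1.2
  rw [hun, h6, Finset.sum_const, smul_eq_mul] at h5
  omega

lemma compB (hc : Ctx T W B) (hC : Closed T W B C) (hW : W.Nonempty) :
    26 + 4 * (K T W C).card ≤ 5 * (J T W B C).card := by
  have h1 := K_half (C := C) hc
  have h2 := J_ge_six hc hC hW
  obtain ⟨r, hr⟩ := J_even hc hC
  have h3 := J_ge hc hC
  rcases Nat.lt_or_ge (J T W B C).card 7 with h4 | h4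
  · have := K_le_one (C := C) hc (by omega)
    omega
  · rcases Nat.lt_or_ge (J T W B C).card 9 with h5 | h5
    · have := K_le_three hc hC (by omega)
      omega
    · omega

end H41
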