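import Pool.Agent.H41.LemA

set_option autoImplicit false
set_option linter.unusedSectionVars false
set_option linter.unusedVariables false

namespace H41

open Finset

variable {V : Type*} [Fintype V] [DecidableEq V] {T : Finset (Finset V)}
variable {W : Finset V} {B : Finset (Finset V)} {C : Finset V}

/-- pairs of W that are adjacent in the diagonal graph -/
def PW (T : Finset (Finset V)) (W : Finset V) : Finset (Finset V) :=
  (powersetCard 2 W).filter (fun p => p ∈ E T ∨ ∃ e ∈ E T, opp T e = p)

lemma S1 (hc : Ctx T W B) : (PW T W).card ≤ (EW T W).card + B.card +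
    ((EW T W).filter (fun e => opp T e ⊆ W)).card + (K T W Wᶜ).card := by
  have h := hc.surf
  have hsub : PW T W ⊆ ((EW T W ∪ B.image (opp T)) ∪ ((EW T W).filter (fun e => opp T e ⊆ W)).image (opp T))
      ∪ K T W Wᶜ := by
    intro p hp
    simp only [PW, Finset.mem_filter, Finset.mem_powersetCard] at hp
    obtain ⟨⟨hpW, hp2⟩, hor⟩ := hp
    simp only [Finset.mem_union]
    by_cases hpE : p ∈ E T
    · left; left; left; exact mem_EW.mpr ⟨hpE, hpW⟩
    · have hex : ∃ e ∈ E T, opp T e = p := by tauto
      obtain ⟨e, he, ho⟩ := hex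
      by_cases heW : e ⊆ W
      · left; right
        rw [Finset.mem_image]
        exact ⟨e, Finset.mem_filter.mpr ⟨mem_EW.mpr ⟨he, heW⟩, ho ▸ hpW⟩, ho⟩
      · by_cases heU : e ⊆ Wᶜ
        · left; left; right
          obtain ⟨e', he', ho'⟩ := hc.Bsurj e he heU (ho ▸ hpW) (ho ▸ hpE)
          rw [Finset.mem_image]
          exact ⟨e', he', ho'.trans ho⟩
        · right
          rw [mem_K]
          refine ⟨⟨hpW, hp2⟩, hpE, ?_⟩
          rw [Finset.not_subset] at heW heU
          obtain ⟨u, hu, huW⟩ := heW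
          obtain ⟨w, hw, hwW⟩ := heU
          rw [Finset.mem_compl, not_not] at hwW
          have hwu : w ≠ u := by rintro rfl; exact huW hwW
          have heq : ({w, u} : Finset V) = e := by
            apply Finset.eq_of_subset_of_card_le
            · intro z hz
              simp only [Finset.mem_insert, Finset.mem_singleton] at hz
              rcases hz with rfl | rfl <;> assumption
            · rw [Finset.card_pair hwu, (mem_E.mp he).1]
          exact ⟨w, hwW, u, Finset.mem_compl.mpr huW, heq ▸ he, heq ▸ ho⟩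
  have c1 := Finset.card_le_card hsub
  have c2 := Finset.card_union_le ((EW T W ∪ B.image (opp T)) ∪ ((EW T W).filter (fun e => opp T e ⊆ W)).image (opp T))
    (K T W Wᶜ)
  have c3 := Finset.card_union_le (EW T W ∪ B.image (opp T)) (((EW T W).filter (fun e => opp T e ⊆ W)).image (opp T))
  have c4 := Finset.card_union_le (EW T W) (B.image (opp T))
  have c5 := Finset.card_image_le (s := B) (f := opp T)
  have c6 := Finset.card_image_le (s := (EW T W).filter (fun e => opp T e ⊆ W)) (f := opp T)
  omega

lemma J_total (hc : Ctx T W B) : (J T W B Wᶜ).card ≤ 2 * fW T W 2 + 4 * B.card := by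
  have h := hc.surf
  set J1 : Finset (V × V × V) := univ.filter (fun p => p.1 ∈ W ∧ p.2.1 ∉ W ∧ p.2.2 ∈ W ∧ Q T p.1 p.2.1 p.2.2) with hJ1
  set J2 : Finset (V × V × V) := univ.filter (fun p => Q T p.1 p.2.1 p.2.2 ∧ ({p.2.1, p.2.2} : Finset V) ∈ B) with hJ2
  have hsub : J T W B Wᶜ ⊆ J1 ∪ J2 := by
    rintro ⟨a, x, y⟩ hp
    rw [mem_J, mem_incS] at hp
    obtain ⟨haW, hx, hq, hy | hB⟩ := hp
    · rw [Finset.mem_union]; left
      simp only [hJ1, Finset.mem_filter, Finset.mem_univ, true_and]
      exact ⟨haW, Finset.mem_compl.mp hx, hy, hq⟩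
    · rw [Finset.mem_union]; right
      simp only [hJ2, Finset.mem_filter, Finset.mem_univ, true_and]
      exact ⟨hq, hB⟩
  have h1 : J1.card ≤ 2 * fW T W 2 := by
    unfold fW
    apply Finset.card_le_mul_card_image_of_maps_to (f := fun p : V × V × V => ({p.1, p.2.1, p.2.2} : Finset V))
    · rintro ⟨a, x, y⟩ hp
      simp only [hJ1, Finset.mem_filter, Finset.mem_univ, true_and] at hp
      obtain ⟨ha, hx, hy, hq⟩ := hp
      rw [Finset.mem_filter]
      refine ⟨hq, ?_⟩
      have hne := Q_ne h hq
      have : ({a, x, y} : Finset V) ∩ W = {a, y} := by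
        ext z
        simp only [Finset.mem_inter, Finset.mem_insert, Finset.mem_singleton]
        constructor
        · rintro ⟨rfl | rfl | rfl, hz⟩
          · exact Or.inl rfl
          · exact absurd hz hx
          · exact Or.inr rfl
        · rintro (rfl | rfl)
          · exact ⟨Or.inl rfl, ha⟩
          · exact ⟨Or.inr (Or.inr rfl), hy⟩
      rw [this, Finset.card_pair hne.2.1]
    · intro t ht
      rw [Finset.mem_filter] at ht
      rw [← ht.2]
      apply Finset.card_le_card_of_injOn (fun p => p.1)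
      · rintro ⟨a, x, y⟩ hp
        simp only [hJ1, Finset.coe_filter, Finset.mem_filter, Finset.mem_univ, true_and, Set.mem_ofPred_eq] at hp
        simp only [Finset.coe_inter, Set.mem_inter_iff, Finset.mem_coe]
        refine ⟨?_, hp.1.1⟩
        rw [← hp.2]; simp
      · rintro ⟨a, x, y⟩ hp ⟨a', x', y'⟩ hp' heq
        simp only [hJ1, Finset.coe_filter, Finset.mem_filter, Finset.mem_univ, true_and, Set.mem_ofPred_eq] at hp hp' heq
        subst heq
        obtain ⟨⟨haW, hx, hy, hq⟩, ht1⟩ := hp
        obtain ⟨⟨_, hx', hy', hq'⟩, ht2⟩ := hp'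
        have hne := Q_ne h hq
        have e1 : x ∈ ({a, x', y'} : Finset V) := by rw [ht2, ← ht1]; simp
        have e2 : y ∈ ({a, x', y'} : Finset V) := by rw [ht2, ← ht1]; simp
        simp only [Finset.mem_insert, Finset.mem_singleton] at e1 e2
        have hxx : x = x' := by
          rcases e1 with e1 | e1 | e1
          · exact absurd e1.symm hne.1
          · exact e1
          · subst e1; exact absurd hy' hx
        have hyy : y = y' := by
          rcases e2 with e2 | e2 | e2
          · exact absurd e2.symm hne.2.1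
          · subst e2; exact absurd hy hx'
          · exact e2
        rw [hxx, hyy]
  have h2 : J2.card ≤ 4 * B.card := by
    apply Finset.card_le_mul_card_image_of_maps_to (f := fun p : V × V × V => ({p.2.1, p.2.2} : Finset V))
    · rintro ⟨a, x, y⟩ hp
      simp only [hJ2, Finset.mem_filter, Finset.mem_univ, true_and] at hp
      exact hp.2
    · intro e he
      have heB := hc.Bsub e he
      have hcard : (opp T e ×ˢ e).card = 4 := by
        rw [Finset.card_product, card_opp h heB.1, (mem_E.mp heB.1).1]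
      rw [← hcard]
      apply Finset.card_le_card_of_injOn (fun p => (p.1, p.2.1))
      · rintro ⟨a, x, y⟩ hp
        simp only [hJ2, Finset.coe_filter, Finset.mem_filter, Finset.mem_univ, true_and, Set.mem_ofPred_eq] at hp
        simp only [Finset.mem_coe, Finset.mem_product]
        obtain ⟨⟨hq, _⟩, rfl⟩ := hp
        refine ⟨(mem_opp_pair h).mpr (Q_rot.mp hq), by simp⟩
      · rintro ⟨a, x, y⟩ hp ⟨a', x', y'⟩ hp' heq
        simp only [hJ2, Finset.coe_filter, Finset.mem_filter, Finset.mem_univ, true_and, Set.mem_ofPred_eq] at hp hp'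
        simp only [Prod.mk.injEq] at heq
        obtain ⟨rfl, rfl⟩ := heq
        obtain ⟨⟨hq, _⟩, ht1⟩ := hp
        obtain ⟨⟨hq', _⟩, ht2⟩ := hp'
        have e2 : y ∈ ({x, y'} : Finset V) := by rw [ht2, ← ht1]; simp
        simp only [Finset.mem_insert, Finset.mem_singleton] at e2
        rcases e2 with e2 | e2
        · exact absurd e2.symm (Q_ne h hq).2.2
        · rw [e2]
  calc (J T W B Wᶜ).card ≤ _ := Finset.card_le_card hsub
    _ ≤ _ := Finset.card_union_le _ _
    _ ≤ _ := by omega

/-- the vertex set of a component -/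
noncomputable def comp (T : Finset (Finset V)) (W : Finset V) (B : Finset (Finset V))
    (c : (Gam T W B).ConnectedComponent) : Finset V := by
  classical
  exact univ.filter (fun x => ∃ h : x ∉ W, (Gam T W B).connectedComponentMk ⟨x, h⟩ = c)

lemma mem_comp {c : (Gam T W B).ConnectedComponent} {x : V} :
    x ∈ comp T W B c ↔ ∃ h : x ∉ W, (Gam T W B).connectedComponentMk ⟨x, h⟩ = c := by
  simp [comp]

lemma comp_closed (hc : Ctx T W B) (c : (Gam T W B).ConnectedComponent) : Closed T W B (comp T W B c) := by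
  have h := hc.surf
  refine ⟨?_, ?_, ?_⟩
  · induction c using SimpleGraph.ConnectedComponent.ind with
    | h v => exact ⟨v.1, mem_comp.mpr ⟨v.2, rfl⟩⟩
  · intro x hx
    obtain ⟨hx, _⟩ := mem_comp.mp hx
    exact hx
  · intro x hx y hy hz hB
    obtain ⟨hx, hxc⟩ := mem_comp.mp hx
    rw [mem_comp]
    refine ⟨hy, ?_⟩
    rw [← hxc]
    apply SimpleGraph.ConnectedComponent.sound
    apply SimpleGraph.Adj.reachable
    change ({y, x} : Finset V) ∈ EB T W B
    rw [Finset.pair_comm, EB, Finset.mem_sdiff, mem_EW]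
    refine ⟨⟨(pair_mem_E h).mpr hz, ?_⟩, hB⟩
    intro w hw
    simp only [Finset.mem_insert, Finset.mem_singleton] at hw
    rw [Finset.mem_compl]
    rcases hw with rfl | rfl <;> assumption

open Classical in
lemma sum_J (hc : Ctx T W B) :
    ∑ c : (Gam T W B).ConnectedComponent, (J T W B (comp T W B c)).card ≤ (J T W B Wᶜ).card := by
  rw [← Finset.card_biUnion]
  · apply Finset.card_le_card
    rintro ⟨a, x, y⟩ hp
    rw [Finset.mem_biUnion] at hp
    obtain ⟨c, _, hp⟩ := hp
    rw [mem_J, mem_incS] at hp ⊢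
    obtain ⟨hx, _⟩ := mem_comp.mp hp.2.1
    exact ⟨hp.1, Finset.mem_compl.mpr hx, hp.2.2⟩
  · intro c _ c' _ hcc
    rw [Function.onFun, Finset.disjoint_left]
    rintro ⟨a, x, y⟩ h1 h2
    rw [mem_J, mem_incS] at h1 h2
    obtain ⟨hx, hx1⟩ := mem_comp.mp h1.2.1
    obtain ⟨_, hx2⟩ := mem_comp.mp h2.2.1
    exact hcc (hx1.symm.trans hx2)

open Classical in
lemma sum_K (hc : Ctx T W B) :
    (K T W Wᶜ).card ≤ ∑ c : (Gam T W B).ConnectedComponent, (K T W (comp T W B c)).card := by
  have hsub : K T W Wᶜ ⊆ univ.biUnion (fun c : (Gam T W B).ConnectedComponent => K T W (comp T W B c)) := by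
    intro p hp
    rw [Finset.mem_biUnion]
    have hp' := hp
    rw [mem_K] at hp'
    obtain ⟨h1, h2, w, hw, u, hu, h3, h4⟩ := hp'
    refine ⟨(Gam T W B).connectedComponentMk ⟨u, Finset.mem_compl.mp hu⟩, Finset.mem_univ _, ?_⟩
    rw [mem_K]
    exact ⟨h1, h2, w, hw, u, mem_comp.mpr ⟨Finset.mem_compl.mp hu, rfl⟩, h3, h4⟩
  exact (Finset.card_le_card hsub).trans Finset.card_biUnion_le

theorem main_ineq (hc : Ctx T W B) (hW : W.Nonempty) (hU : (Wᶜ).Nonempty) :
    2 * (PW T W).card + 12 * (Wᶜ).card < 6 * T.card := by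
  classical
  have h := hc.surf
  have s1 := S1 hc
  have s2 := f2_le h W
  have s3 := two_mul_EW h W
  have s3' := two_mul_EW h Wᶜ
  rw [sum_choose h] at s3 s3'
  rw [fW_compl h W 2 (by norm_num), fW_compl h W 3 (by norm_num)] at s3'
  norm_num at s3'
  have s4 := lemA hc hW
  have s5 : (EB T W B).card + B.card = (EW T Wᶜ).card := by
    unfold EB
    apply Finset.card_sdiff_add_card_eq_card
    intro e he
    rw [mem_EW]
    exact ⟨(hc.Bsub e he).1, (hc.Bsub e he).2.1⟩
  have s6 := J_total hc
  have s7 := sum_J hc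
  have s8 := sum_K hc
  have s9 : ∑ c : (Gam T W B).ConnectedComponent, (26 + 4 * (K T W (comp T W B c)).card) ≤
      ∑ c : (Gam T W B).ConnectedComponent, 5 * (J T W B (comp T W B c)).card :=
    Finset.sum_le_sum (fun c _ => compB hc (comp_closed hc c) hW)
  rw [Finset.sum_add_distrib, ← Finset.mul_sum, ← Finset.mul_sum, Finset.sum_const, Finset.card_univ,
    smul_eq_mul] at s9
  have s10 := card_T h W
  have s11 : 0 < Fintype.card (Gam T W B).ConnectedComponent := by
    obtain ⟨u, hu⟩ := hU
    exact Fintype.card_pos_iff.mpr ⟨(Gam T W B).connectedComponentMk ⟨u, Finset.mem_compl.mp hu⟩⟩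
  omega

end H41
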